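import Mathlib

/-!
# Dade's invariant conjecture: definitions

`G` is a finite group, `p` a prime and `M` a maximal ideal of the ring of algebraic integers
which contains `p`. Characters of a subgroup of `G` are functions on `G` which vanish outside the
subgroup. A `p`-chain `P₀ < P₁ < ⋯ < Pₙ` is given by the set `{P₀, …, Pₙ}` of its terms, and its
length `n` is the number of terms minus one.
-/

set_option autoImplicit false

namespace Pool.Agent.helper58.DC

/-- `Irr(H)`: the complex irreducible characters of a group `H`. -/
def Irr (H : Type) [Group H] : Set (H → ℂ) :=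
  {χ | ∃ (V : Type) (_ : AddCommGroup V) (_ : Module ℂ V) (_ : FiniteDimensional ℂ V)
    (ρ : Representation ℂ H V), ρ.IsIrreducible ∧ ρ.character = χ}

section

variable {G : Type} [Group G]

/-- The complex irreducible characters of the subgroup `H` of `G`, extended by zero to `G`. -/
def IrrOn (H : Subgroup G) : Set (G → ℂ) :=
  {ψ | (∀ g, g ∉ H → ψ g = 0) ∧ (fun h : H => ψ (h : G)) ∈ Irr H}

/-- `d(ψ) = d` for a character `ψ` of the subgroup `H`: `p ^ d` is the `p`-part of
`|H| / ψ(1)`. -/
def Defect (p : ℕ) (H : Subgroup G) (ψ : G → ℂ) (d : ℤ) : Prop :=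
  ∃ n : ℕ, ψ 1 = n ∧ d = (padicValNat p (Nat.card H) : ℤ) - padicValNat p n

/-- The value of the central character of `ψ`, a character of some subgroup `H` of `G`, at the
sum of all elements of `H` which are conjugate to `g` in `G`; for `H = G` this is
`|K| ψ(g) / ψ(1)`, where `K` is the conjugacy class of `g`. -/
noncomputable def omega (ψ : G → ℂ) (g : G) : ℂ :=
  (∑ᶠ x ∈ conjugatesOf g, ψ x) / ψ 1

/-- For an irreducible character `ψ` of a subgroup `H` of `G` and an irreducible character `χ`
of `G`: the induced block `b(ψ)^G` of the block of `ψ` is defined and is the block of `χ`, that is,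
the central characters agree modulo `M` at all class sums of `G`. For `H = G` this says that `ψ`
and `χ` lie in the same block. -/
def Induces (M : Ideal (integralClosure ℤ ℂ)) (ψ χ : G → ℂ) : Prop :=
  ∀ g : G, ∃ a ∈ M, omega ψ g - omega χ g = ((a : integralClosure ℤ ℂ) : ℂ)

/-- The block of `χ` has a nontrivial defect group: it contains a character of positive
defect. -/
def PosDefect (p : ℕ) (M : Ideal (integralClosure ℤ ℂ)) (χ : G → ℂ) : Prop :=
  ∃ χ' ∈ Irr G, Induces M χ' χ ∧ ∃ d : ℤ, 0 < d ∧ Defect p ⊤ χ' d

/-- `P = O_p(H)`: the largest `p`-subgroup of `H` which is normalised by `H`. -/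
def IsOp (p : ℕ) (H P : Subgroup G) : Prop :=
  IsGreatest {Q : Subgroup G | Q ≤ H ∧ IsPGroup p Q ∧ H ≤ Subgroup.normalizer (Q : Set G)} P

/-- The normaliser `N_G(C)` of a chain. -/
def nrm (C : Finset (Subgroup G)) : Subgroup G :=
  ⨅ P ∈ C, Subgroup.normalizer (P : Set G)

open Classical in
/-- The radical `p`-chains: the terms are `p`-subgroups, the first term is `O_p(G)`, and every
later term `P` is `O_p(N_G(C'))`, where `C'` is the truncation of the chain which ends with
`P`. -/
structure IsRadical (p : ℕ) (C : Finset (Subgroup G)) : Prop where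
  chain : IsChain (· ≤ ·) (C : Set (Subgroup G))
  isPGroup : ∀ P ∈ C, IsPGroup p P
  radical : ∃ P₀ ∈ C, (∀ P ∈ C, P₀ ≤ P) ∧ IsOp p ⊤ P₀ ∧
    ∀ P ∈ C, P ≠ P₀ → IsOp p (nrm (C.filter (· ≤ P))) P

open Classical in
/-- The image of a chain under an automorphism. -/
noncomputable def chainMap (α : MulAut G) (C : Finset (Subgroup G)) : Finset (Subgroup G) :=
  C.image fun P => P.map α.toMonoidHom

/-- The image of a function under an automorphism. -/
def funMap (α : MulAut G) (ψ : G → ℂ) : G → ℂ := fun g => ψ (α⁻¹ g)

/-- Conjugacy of radical chains. -/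
def chainRel (p : ℕ) (C D : {C : Finset (Subgroup G) // IsRadical p C}) : Prop :=
  ∃ g : G, chainMap (MulAut.conj g) C.1 = D.1

end

/-- A short exact sequence `1 → G → E → A → 1`, together with the action of `E` on `G` by
conjugation. -/
structure Extension (G E A : Type) [Group G] [Group E] [Group A] where
  /-- the inclusion -/
  inc : G →* E
  /-- the projection -/
  proj : E →* A
  inc_injective : Function.Injective inc
  proj_surjective : Function.Surjective proj
  exact : ∀ e : E, proj e = 1 ↔ ∃ g : G, inc g = e
  /-- the action by conjugation -/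
  act : E →* MulAut G
  act_spec : ∀ (e : E) (g : G), inc (act e g) = e * inc g * e⁻¹

section

variable {G E A : Type} [Group G] [Group E] [Group A] (X : Extension G E A)

/-- The subgroup `N_E(C, ψ)` of all elements of `E` which fix both `C` and `ψ`. -/
def Extension.stab (C : Finset (Subgroup G)) (ψ : G → ℂ) : Subgroup E where
  carrier := {e | chainMap (X.act e) C = C ∧ funMap (X.act e) ψ = ψ}
  mul_mem' := by
    classical
    rintro a b ⟨ha, ha'⟩ ⟨hb, hb'⟩
    refine ⟨?_, ?_⟩
    · have h : chainMap (X.act (a * b)) C = chainMap (X.act a) (chainMap (X.act b) C) := by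
        unfold chainMap
        rw [Finset.image_image]
        refine Finset.image_congr fun P _ => ?_
        simp only [Function.comp_apply, Subgroup.map_map, map_mul]
        rfl
      rw [h, hb, ha]
    · have h : funMap (X.act (a * b)) ψ = funMap (X.act a) (funMap (X.act b) ψ) := by
        funext g
        simp [funMap, map_mul, mul_inv_rev]
      rw [h, hb', ha']
  one_mem' := by
    classical
    refine ⟨?_, ?_⟩
    · unfold chainMap
      rw [map_one]
      conv_rhs => rw [← Finset.image_id (s := C)]
      refine Finset.image_congr fun P _ => ?_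
      exact Subgroup.map_id P
    · funext g
      simp [funMap]
  inv_mem' := by
    classical
    rintro a ⟨ha, ha'⟩
    refine ⟨?_, ?_⟩
    · conv_lhs => rw [← ha]
      unfold chainMap
      rw [Finset.image_image]
      conv_rhs => rw [← Finset.image_id (s := C)]
      refine Finset.image_congr fun P _ => ?_
      simp only [Function.comp_apply, Subgroup.map_map, map_inv, id]
      convert Subgroup.map_id P
      ext g
      simp
    · conv_lhs => rw [← ha']
      funext g
      simp [funMap]

/-- `k_C(B, d, U)` for the block `B` of `χ`: the number of irreducible characters `ψ` of `N_G(C)`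
with `d(ψ) = d` and `b(ψ)^G = B` such that `N_A(C, ψ) = U`. -/
noncomputable def kC (p : ℕ) (M : Ideal (integralClosure ℤ ℂ)) (χ : G → ℂ) (d : ℤ)
    (U : Subgroup A) (C : Finset (Subgroup G)) : ℕ :=
  Nat.card {ψ : G → ℂ // ψ ∈ IrrOn (nrm C) ∧ Defect p (nrm C) ψ d ∧ Induces M ψ χ ∧
    (X.stab C ψ).map X.proj = U}

/-- `∑ (-1)^{|C|} k_C(B, d, U)`, the sum over one chain `C` of each conjugacy class of radical
`p`-chains of `G`, where `B` is the block of `χ`. -/
noncomputable def altSum (p : ℕ) (M : Ideal (integralClosure ℤ ℂ)) (χ : G → ℂ) (d : ℤ)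
    (U : Subgroup A) : ℤ :=
  ∑ᶠ c : Quot (chainRel (G := G) p), (-1) ^ (c.out.1.card - 1) * (kC X p M χ d U c.out.1 : ℤ)

end

/-- Dade's invariant conjecture for the prime `p`. -/
def Dade (p : ℕ) (M : Ideal (integralClosure ℤ ℂ)) : Prop :=
  ∀ (G E A : Type) [Group G] [Group E] [Group A] [Finite G] [Finite E] (X : Extension G E A),
    IsOp p (⊤ : Subgroup G) ⊥ → ∀ χ ∈ Irr G, PosDefect p M χ → ∀ (d : ℤ) (U : Subgroup A),
      altSum X p M χ d U = 0

end Pool.Agent.helper58.DC
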