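import Mathlib
import Pool.Agent.helper58.DC.Defs

/-! Common constructions for the project on Dade's conjecture. -/

set_option autoImplicit false

namespace Pool.Agent.helper58.DC

section chains

variable {G : Type} [Group G]

open Classical in
/-- the number of terms of `C` strictly below `P` -/
noncomputable def rk (C : Finset (Subgroup G)) (P : Subgroup G) : ℕ := (C.filter (· < P)).card

open Classical in
/-- the term of rank `j` of the chain `C` -/
noncomputable def nth (C : Finset (Subgroup G)) (j : ℕ) : Subgroup G :=
  ⨆ P ∈ C.filter (fun P => rk C P ≤ j), P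

/-- `W` is a chain of vectors between `0` and `a` such that every coordinate takes all values -/
def IsPath {T : Type} (a : T → ℕ) (W : Finset (T → ℕ)) : Prop :=
  W.Nonempty ∧ IsChain (· ≤ ·) (W : Set (T → ℕ)) ∧ (∀ r ∈ W, ∀ t, r t ≤ a t) ∧
    ∀ t, ∀ j ≤ a t, ∃ r ∈ W, r t = j

open Classical in
/-- the chain of `T → G` with components `C t` and path `W` -/
noncomputable def asmC {T : Type} (C : T → Finset (Subgroup G)) (W : Finset (T → ℕ)) :
    Finset (Subgroup (T → G)) :=
  W.image fun r => Subgroup.pi Set.univ fun t => nth (C t) (r t)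

/-- external product of functions -/
noncomputable def tens {T : Type} [Fintype T] (ψ : T → G → ℂ) : (T → G) → ℂ :=
  fun x => ∏ t, ψ t (x t)

/-- the pairs `(C, ψ)` for the block of `χ` -/
def IsPair (p : ℕ) (M : Ideal (integralClosure ℤ ℂ)) (χ : G → ℂ)
    (x : Finset (Subgroup G) × (G → ℂ)) : Prop :=
  IsRadical p x.1 ∧ x.2 ∈ IrrOn (nrm x.1) ∧ Induces M x.2 χ

/-- image of a pair under an automorphism -/
noncomputable def pairMap (α : MulAut G) (x : Finset (Subgroup G) × (G → ℂ)) :
    Finset (Subgroup G) × (G → ℂ) := (chainMap α x.1, funMap α x.2)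

/-- length of the chain of a pair -/
def len (x : Finset (Subgroup G) × (G → ℂ)) : ℕ := x.1.card - 1

/-- defect of the character of a pair -/
noncomputable def dfc (p : ℕ) (x : Finset (Subgroup G) × (G → ℂ)) : ℤ :=
  (padicValNat p (Nat.card (nrm x.1)) : ℤ) - padicValNat p ⌊(x.2 1).re⌋₊

open Classical in
/-- the chain with path `W` and components those of `x`, with the product character -/
noncomputable def asm {T : Type} [Fintype T] (x : T → Finset (Subgroup G) × (G → ℂ))
    (W : Finset (T → ℕ)) : Finset (Subgroup (T → G)) × ((T → G) → ℂ) :=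
  (asmC (fun t => (x t).1) W, tens fun t => (x t).2)

end chains

/-- a cocycle of the `L`-set `T` with values in `A` -/
structure Cocycle (L T A : Type) [Group L] [MulAction L T] [Group A] where
  /-- the map -/
  κ : L → T → A
  mul : ∀ l l' t, κ (l * l') t = κ l (l' • t) * κ l' t

theorem Cocycle.one {L T A : Type} [Group L] [MulAction L T] [Group A] (c : Cocycle L T A)
    (t : T) : c.κ 1 t = 1 := by
  have h := c.mul 1 1 t
  rw [one_mul, one_smul] at h
  exact (left_eq_mul.1 h)

section kext

variable {G E A : Type} [Group G] [Group E] [Group A] (X : Extension G E A)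
variable {L T : Type} [Group L] [MulAction L T] (c : Cocycle L T A)

/-- The group of the extension of `T → G` by `L` which is defined by a cocycle. -/
structure KE where
  /-- the element of `L` -/
  l : L
  /-- the components -/
  f : T → E
  h : ∀ t, X.proj (f t) = c.κ l t

variable {X c}

@[ext] theorem KE.ext {a b : KE X c} (h : a.l = b.l) (h' : a.f = b.f) : a = b := by
  cases a; cases b; cases h; cases h'; rfl

instance : Mul (KE X c) where
  mul a b := ⟨a.l * b.l, fun t => a.f (b.l • t) * b.f t, fun t => by
    rw [map_mul, a.h, b.h, c.mul]⟩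

instance : One (KE X c) where
  one := ⟨1, fun _ => 1, fun t => by rw [map_one, c.one]⟩

instance : Inv (KE X c) where
  inv a := ⟨a.l⁻¹, fun t => (a.f (a.l⁻¹ • t))⁻¹, fun t => by
    rw [map_inv, a.h]
    have h := c.mul a.l a.l⁻¹ t
    rw [mul_inv_cancel, c.one] at h
    exact inv_eq_of_mul_eq_one_right h.symm⟩

@[simp] theorem KE.mul_l (a b : KE X c) : (a * b).l = a.l * b.l := rfl
@[simp] theorem KE.mul_f (a b : KE X c) (t : T) : (a * b).f t = a.f (b.l • t) * b.f t := rfl
@[simp] theorem KE.one_l : (1 : KE X c).l = 1 := rfl
@[simp] theorem KE.one_f (t : T) : (1 : KE X c).f t = 1 := rfl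
@[simp] theorem KE.inv_l (a : KE X c) : a⁻¹.l = a.l⁻¹ := rfl
@[simp] theorem KE.inv_f (a : KE X c) (t : T) : a⁻¹.f t = (a.f (a.l⁻¹ • t))⁻¹ := rfl

instance : Group (KE X c) where
  mul_assoc a b d := by
    ext t
    · simp [mul_assoc]
    · simp [mul_assoc, mul_smul]
  one_mul a := by
    ext t
    · simp
    · simp
  mul_one a := by
    ext t
    · simp
    · simp
  inv_mul_cancel a := by
    ext t
    · simp
    · simp

variable (X c)

/-- The action of an element of `KE X c` on `T → G`. -/
noncomputable def keAut (e : KE X c) : MulAut (T → G) where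
  toFun x := fun s => X.act (e.f (e.l⁻¹ • s)) (x (e.l⁻¹ • s))
  invFun x := fun t => (X.act (e.f t))⁻¹ (x (e.l • t))
  left_inv x := by
    funext t
    simp
  right_inv x := by
    funext s
    simp
  map_mul' x y := by
    funext s
    simp

/-- The extension `1 → (T → G) → KE X c → L → 1`. -/
noncomputable def kext : Extension (T → G) (KE X c) L where
  inc :=
    { toFun := fun x => ⟨1, fun t => X.inc (x t), fun t => by
        rw [c.one, X.exact]; exact ⟨_, rfl⟩⟩
      map_one' := by ext t <;> simp
      map_mul' := fun x y => by ext t <;> simp }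
  proj :=
    { toFun := fun e => e.l
      map_one' := rfl
      map_mul' := fun _ _ => rfl }
  inc_injective x y h := by
    funext t
    have h1 := congrArg (fun e : KE X c => e.f t) h
    exact X.inc_injective h1
  proj_surjective l := by
    choose f hf using fun t => X.proj_surjective (c.κ l t)
    exact ⟨⟨l, f, hf⟩, rfl⟩
  exact e := by
    constructor
    · intro h
      have h' : e.l = 1 := h
      have h1 : ∀ t, ∃ g, X.inc g = e.f t := fun t => by
        rw [← X.exact, e.h, h', c.one]
      choose x hx using h1
      refine ⟨x, ?_⟩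
      ext t
      · exact h'.symm
      · exact hx t
    · rintro ⟨x, rfl⟩
      rfl
  act :=
    { toFun := fun e => keAut X c e
      map_one' := by
        refine MulEquiv.ext fun x => ?_
        funext s
        simp [keAut]
      map_mul' := fun a b => by
        refine MulEquiv.ext fun x => ?_
        funext s
        simp [keAut, mul_smul] }
  act_spec e x := by
    ext t
    · simp
    · simp [keAut, X.act_spec]

@[simp] theorem kext_proj (e : KE X c) : (kext X c).proj e = e.l := rfl
theorem kext_act (e : KE X c) (x : T → G) (s : T) :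
    (kext X c).act e x s = X.act (e.f (e.l⁻¹ • s)) (x (e.l⁻¹ • s)) := rfl
theorem kext_act_symm (e : KE X c) (x : T → G) (t : T) :
    ((kext X c).act e)⁻¹ x t = (X.act (e.f t))⁻¹ (x (e.l • t)) := rfl

end kext

/-- A finite `A`-set with two invariant functions, a length and a defect. -/
structure SSet (A : Type) [Group A] where
  /-- the set -/
  Z : Type
  fin : Finite Z
  /-- the action -/
  act : A →* Equiv.Perm Z
  /-- the length -/
  len : Z → ℕ
  /-- the defect -/
  dfc : Z → ℤ
  len_act : ∀ a z, len (act a z) = len z
  dfc_act : ∀ a z, dfc (act a z) = dfc z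

open Classical in
/-- signed number of elements of defect `d` with stabiliser `U` -/
noncomputable def SSet.num {A : Type} [Group A] (S : SSet A) (d : ℤ) (U : Subgroup A) : ℤ :=
  ∑ᶠ z : S.Z, if S.dfc z = d ∧ (∀ a, a ∈ U ↔ S.act a z = z) then (-1) ^ S.len z else 0

open Classical in
/-- signed number of elements of defect `d` fixed by `U` -/
noncomputable def SSet.fix {A : Type} [Group A] (S : SSet A) (d : ℤ) (U : Subgroup A) : ℤ :=
  ∑ᶠ z : S.Z, if S.dfc z = d ∧ (∀ a ∈ U, S.act a z = z) then (-1) ^ S.len z else 0

/-- isomorphism -/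
def SSet.Iso {A : Type} [Group A] (S S' : SSet A) : Prop :=
  ∃ e : S.Z ≃ S'.Z, (∀ a z, e (S.act a z) = S'.act a (e z)) ∧ (∀ z, S'.len (e z) = S.len z) ∧
    ∀ z, S'.dfc (e z) = S.dfc z

end Pool.Agent.helper58.DC
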