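import Mathlib
import Pool.Agent.helper58.DC.Core

/-! Path sets, restriction of extensions, wreath products. -/

set_option autoImplicit false

namespace Pool.Agent.helper58.DC

section paths

variable {A L T : Type} [Group A] [Group L] [MulAction L T]

open Classical in
/-- the action of `l` on finite sets of vectors -/
noncomputable def wAct (l : L) (W : Finset (T → ℕ)) : Finset (T → ℕ) :=
  W.image fun r s => r (l⁻¹ • s)

theorem mem_wAct (l : L) (W : Finset (T → ℕ)) (r : T → ℕ) :
    r ∈ wAct l W ↔ (fun t => r (l • t)) ∈ W := by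
  classical
  unfold wAct
  rw [Finset.mem_image]
  constructor
  · rintro ⟨u, hu, rfl⟩
    simpa using hu
  · intro h
    exact ⟨_, h, by funext s; simp⟩

theorem wAct_one (W : Finset (T → ℕ)) : wAct (1 : L) W = W := by
  ext r; simp [mem_wAct]

theorem wAct_mul (l l' : L) (W : Finset (T → ℕ)) : wAct (l * l') W = wAct l (wAct l' W) := by
  ext r; simp [mem_wAct, mul_smul]

theorem card_wAct (l : L) (W : Finset (T → ℕ)) : (wAct l W).card = W.card := by
  classical
  unfold wAct
  refine Finset.card_image_of_injective _ fun r u h => ?_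
  funext t
  have := congrFun h (l • t)
  simpa using this

theorem isPath_wAct (l : L) {a : T → ℕ} {W : Finset (T → ℕ)} (h : IsPath a W) :
    IsPath (fun s => a (l⁻¹ • s)) (wAct l W) := by
  classical
  obtain ⟨h1, h2, h3, h4⟩ := h
  refine ⟨?_, ?_, ?_, ?_⟩
  · unfold wAct; exact h1.image _
  · intro r hr u hu hru
    rw [Finset.mem_coe, mem_wAct] at hr hu
    have hne : (fun t => r (l • t)) ≠ fun t => u (l • t) := by
      intro h
      apply hru
      funext s
      have := congrFun h (l⁻¹ • s)
      simpa using this
    rcases h2 hr hu hne with h | h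
    · left
      intro s
      have := h (l⁻¹ • s)
      simpa using this
    · right
      intro s
      have := h (l⁻¹ • s)
      simpa using this
  · intro r hr t
    rw [mem_wAct] at hr
    have := h3 _ hr (l⁻¹ • t)
    simpa using this
  · intro t j hj
    obtain ⟨r, hr, hrj⟩ := h4 (l⁻¹ • t) j hj
    refine ⟨fun s => r (l⁻¹ • s), ?_, hrj⟩
    rw [mem_wAct]
    simpa using hr

variable [Fintype T]

/-- The `L`-set of families of elements of `S`, with a path. -/
noncomputable def pathS (S : SSet A) (c : Cocycle L T A) : SSet L where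
  Z := {w : (T → S.Z) × Finset (T → ℕ) // IsPath (fun t => S.len (w.1 t)) w.2}
  fin := by
    classical
    have := S.fin
    have hf : Set.Finite {w : (T → S.Z) × Finset (T → ℕ) |
        IsPath (fun t => S.len (w.1 t)) w.2} := by
      have h1 : Set.Finite {W : (T → S.Z) × Finset (T → ℕ) | W.2 ∈
          ((Fintype.piFinset fun t => Finset.range ((∑ᶠ z, S.len z) + 1)).powerset :
            Finset (Finset (T → ℕ)))} := by
        have h2 : Set.Finite ((Set.univ : Set (T → S.Z)) ×ˢ
          (((Fintype.piFinset fun t => Finset.range ((∑ᶠ z, S.len z) + 1)).powerset :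
            Finset (Finset (T → ℕ))) : Set (Finset (T → ℕ)))) :=
          Set.finite_univ.prod (Finset.finite_toSet _)
        refine h2.subset ?_
        rintro ⟨a, b⟩ h
        exact ⟨trivial, h⟩
      refine h1.subset ?_
      rintro ⟨z, W⟩ ⟨-, -, h3, -⟩
      rw [Set.mem_ofPred_eq, Finset.mem_powerset]
      intro r hr
      rw [Fintype.mem_piFinset]
      intro t
      rw [Finset.mem_range]
      have h5 := h3 r hr t
      have h6 : S.len (z t) ≤ ∑ᶠ z, S.len z := by
        have := Fintype.ofFinite S.Z
        rw [finsum_eq_sum_of_fintype]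
        exact Finset.single_le_sum (f := fun z => S.len z) (fun _ _ => Nat.zero_le _)
          (Finset.mem_univ (z t))
      exact Nat.lt_succ_of_le (h5.trans h6)
    exact hf.to_subtype
  act :=
    MonoidHom.toHomPerm
      { toFun := fun l w => ⟨(fun s => S.act (c.κ l (l⁻¹ • s)) (w.1.1 (l⁻¹ • s)), wAct l w.1.2), by
          have h := isPath_wAct l w.2
          simpa only [S.len_act] using h⟩
        map_one' := by
          funext w
          refine Subtype.ext (Prod.ext ?_ ?_)
          · funext s
            simp [c.one]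
            rfl
          · exact wAct_one _
        map_mul' := fun l l' => by
          funext w
          refine Subtype.ext (Prod.ext ?_ ?_)
          · funext s
            simp [c.mul, mul_smul]
            rfl
          · exact wAct_mul _ _ _ }
  len w := w.1.2.card - 1
  dfc w := ∑ t, S.dfc (w.1.1 t)
  len_act l w := by
    change (wAct l w.1.2).card - 1 = _
    rw [card_wAct]
  dfc_act l w := by
    change ∑ s, S.dfc (S.act (c.κ l (l⁻¹ • s)) (w.1.1 (l⁻¹ • s))) = _
    simp only [S.dfc_act]
    exact Fintype.sum_equiv (MulAction.toPerm (l⁻¹ : L)) _ _ fun s => rfl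

end paths

section res

variable {G E A : Type} [Group G] [Group E] [Group A]

/-- The restriction of an extension to a subgroup `U` of `A`. -/
noncomputable def resE (X : Extension G E A) (U : Subgroup A) :
    Extension G (U.comap X.proj) U where
  inc := X.inc.codRestrict _ fun g => by
    rw [Subgroup.mem_comap, (X.exact _).2 ⟨g, rfl⟩]; exact U.one_mem
  proj := X.proj.subgroupComap U
  inc_injective a b h := X.inc_injective (congrArg Subtype.val h)
  proj_surjective a := by
    obtain ⟨e, he⟩ := X.proj_surjective a
    exact ⟨⟨e, by rw [Subgroup.mem_comap, he]; exact a.2⟩, Subtype.ext he⟩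
  exact e := by
    constructor
    · intro h
      have h1 : X.proj e = 1 := congrArg Subtype.val h
      obtain ⟨g, hg⟩ := (X.exact _).1 h1
      exact ⟨g, Subtype.ext hg⟩
    · rintro ⟨g, rfl⟩
      exact Subtype.ext ((X.exact _).2 ⟨g, rfl⟩)
  act := X.act.comp (U.comap X.proj).subtype
  act_spec e g := Subtype.ext (X.act_spec e g)

end res

section wreath

/-- The wreath product of `A` with the symmetric group of degree `n`. -/
@[ext] structure Wr (A : Type) (n : ℕ) where
  /-- the permutation -/
  σ : Equiv.Perm (Fin n)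
  /-- the components -/
  a : Fin n → A

variable {A : Type} [Group A] {n : ℕ}

instance : Mul (Wr A n) where
  mul x y := ⟨x.σ * y.σ, fun i => x.a (y.σ i) * y.a i⟩
instance : One (Wr A n) where
  one := ⟨1, fun _ => 1⟩
instance : Inv (Wr A n) where
  inv x := ⟨x.σ⁻¹, fun i => (x.a (x.σ⁻¹ i))⁻¹⟩

@[simp] theorem Wr.mul_σ (x y : Wr A n) : (x * y).σ = x.σ * y.σ := rfl
@[simp] theorem Wr.mul_a (x y : Wr A n) (i : Fin n) : (x * y).a i = x.a (y.σ i) * y.a i := rfl
@[simp] theorem Wr.one_σ : (1 : Wr A n).σ = 1 := rfl
@[simp] theorem Wr.one_a (i : Fin n) : (1 : Wr A n).a i = 1 := rfl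
@[simp] theorem Wr.inv_σ (x : Wr A n) : x⁻¹.σ = x.σ⁻¹ := rfl
@[simp] theorem Wr.inv_a (x : Wr A n) (i : Fin n) : x⁻¹.a i = (x.a (x.σ⁻¹ i))⁻¹ := rfl

instance : Group (Wr A n) where
  mul_assoc x y z := by
    ext i
    · simp
    · simp [mul_assoc]
  one_mul x := by
    ext i
    · simp
    · simp
  mul_one x := by
    ext i
    · simp
    · simp
  inv_mul_cancel x := by
    ext i
    · simp
    · simp

instance : MulAction (Wr A n) (Fin n) where
  smul x i := x.σ i
  one_smul _ := rfl
  mul_smul _ _ _ := rfl

theorem Wr.smul_def (x : Wr A n) (i : Fin n) : x • i = x.σ i := rfl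

/-- the tautological cocycle -/
def wrC (A : Type) [Group A] (n : ℕ) : Cocycle (Wr A n) (Fin n) A where
  κ x i := x.a i
  mul _ _ _ := rfl

/-- the elements with permutation in `V` -/
def wrU (A : Type) [Group A] {n : ℕ} (V : Subgroup (Equiv.Perm (Fin n))) : Subgroup (Wr A n) where
  carrier := {x | x.σ ∈ V}
  mul_mem' hx hy := V.mul_mem hx hy
  one_mem' := V.one_mem
  inv_mem' hx := V.inv_mem hx

end wreath

section copies

/-- `r` copies of `Q` -/
def QR (Q : Type) (r : ℕ) : Type := Q × Fin r

instance {Q : Type} [Fintype Q] (r : ℕ) : Fintype (QR Q r) :=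
  inferInstanceAs (Fintype (Q × Fin r))

instance {L Q : Type} [Group L] [MulAction L Q] (r : ℕ) : MulAction L (QR Q r) where
  smul l x := (l • x.1, x.2)
  one_smul x := Prod.ext (one_smul L x.1) rfl
  mul_smul a b x := Prod.ext (mul_smul a b x.1) rfl

/-- the cocycle on `r` copies of `Q` given by a cocycle on `Q` -/
def cocR {L Q A : Type} [Group L] [MulAction L Q] [Group A] (c : Cocycle L Q A) (r : ℕ) :
    Cocycle L (QR Q r) A where
  κ l x := c.κ l x.1
  mul l l' x := c.mul l l' x.1

end copies

end Pool.Agent.helper58.DC
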