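import Mathlib
import Pool.Agent.helper58.DC.Core2

/-!
# Project dq (MP_baa4d7_al), part 1: chains and characters

A module XX proves `theorem XX (hYY : YY_stmt) ... : XX_stmt` in
`Pool/Agent/<helper>/DC/XX.lean` (namespace `Pool.Agent.<helper>.DC`). Import this file.
-/

set_option autoImplicit false

namespace Pool.Agent.helper58.DC

/-! ### chains in one group -/

/-- NT. Rank and `nth` in a chain. (For a chain `C` the map `P ↦ rk C P` is injective and
increasing with values `< C.card`; the terms of rank `≤ j` form an initial segment whose supremum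
is its largest term.) -/
def NT_stmt : Prop :=
  ∀ (G : Type) [Group G] [Finite G] (C : Finset (Subgroup G)),
    IsChain (· ≤ ·) (C : Set (Subgroup G)) →
    (∀ P ∈ C, rk C P < C.card ∧ nth C (rk C P) = P) ∧
    (∀ j < C.card, nth C j ∈ C ∧ rk C (nth C j) = j) ∧
    (∀ P ∈ C, ∀ Q ∈ C, (rk C P ≤ rk C Q ↔ P ≤ Q))

/-- NM. Naturality under automorphisms (no chain hypothesis is needed for the first five
items). -/
def NM_stmt : Prop :=
  ∀ (G : Type) [Group G] [Finite G] (α : MulAut G) (C : Finset (Subgroup G)),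
    (∀ j, nth (chainMap α C) j = (nth C j).map α.toMonoidHom) ∧
    (∀ P, rk (chainMap α C) (P.map α.toMonoidHom) = rk C P) ∧
    (chainMap α C).card = C.card ∧
    nrm (chainMap α C) = (nrm C).map α.toMonoidHom ∧
    (∀ β : MulAut G, chainMap (α * β) C = chainMap α (chainMap β C)) ∧
    chainMap (1 : MulAut G) C = C ∧
    (∀ p : ℕ, IsRadical p C → IsRadical p (chainMap α C))

/-- SN. The stabiliser of a chain is its normaliser. (If `g P g⁻¹` is in the chain then it is
comparable with `P` and has the same order.) -/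
def SN_stmt : Prop :=
  ∀ (G : Type) [Group G] [Finite G] (C : Finset (Subgroup G)),
    IsChain (· ≤ ·) (C : Set (Subgroup G)) → ∀ g : G,
    (chainMap (MulAut.conj g) C = C ↔ g ∈ nrm C)

open Classical in
/-- RB. Radical chains when `O_p(G) = 1`. -/
def RB_stmt : Prop :=
  ∀ (G : Type) [Group G] [Finite G] (p : ℕ), IsOp p (⊤ : Subgroup G) ⊥ →
    ∀ C : Finset (Subgroup G), (IsRadical p C ↔ IsChain (· ≤ ·) (C : Set (Subgroup G)) ∧ ⊥ ∈ C ∧
      ∀ P ∈ C, IsPGroup p P ∧ IsOp p (nrm (C.filter (· ≤ P))) P)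

/-! ### products -/

/-- PI. Elementary facts on product subgroups of `T → G`. -/
def PI_stmt : Prop :=
  ∀ (G T : Type) [Group G] [Finite G] [Fintype T] (p : ℕ) (P Q : T → Subgroup G),
    Subgroup.normalizer ((Subgroup.pi Set.univ P : Subgroup (T → G)) : Set (T → G)) =
      Subgroup.pi Set.univ (fun t => Subgroup.normalizer (P t : Set G)) ∧
    (IsPGroup p (Subgroup.pi Set.univ P : Subgroup (T → G)) ↔ ∀ t, IsPGroup p (P t)) ∧
    ((Subgroup.pi Set.univ P : Subgroup (T → G)) ≤ Subgroup.pi Set.univ Q ↔ ∀ t, P t ≤ Q t) ∧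
    (∀ t, (Subgroup.pi Set.univ P : Subgroup (T → G)).map (Pi.evalMonoidHom (fun _ => G) t) = P t) ∧
    Nat.card (Subgroup.pi Set.univ P : Subgroup (T → G)) = ∏ t, Nat.card (P t)

/-- PO. `O_p` of a product. (⇐: the projections of a `p`-subgroup which is normalised by `∏ H t`
are normalised by the `H t`. ⇒: put a subgroup in one coordinate.) -/
def PO_stmt : Prop :=
  ∀ (G T : Type) [Group G] [Finite G] [Fintype T] (p : ℕ) (H P : T → Subgroup G),
    (IsOp p (Subgroup.pi Set.univ H : Subgroup (T → G)) (Subgroup.pi Set.univ P) ↔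
      ∀ t, IsOp p (H t) (P t))

/-- PR0. Every term of a radical chain of `T → G` is a product. Proof: induction along the chain.
Let `X` be a term, `X_t` its projections, `Y = ∏ X_t`, and `N = nrm (C.filter (· ≤ X))`. The lower
terms are products and are normalised by `X ≤ N`, hence by `Y`. So `Y ⊓ normalizer X` is a
`p`-subgroup of `N` which is normalised by `N`, hence contained in `X`; as `Y` is a finite `p`-group
(normaliser condition) `X = Y`. -/
def PR0_stmt : Prop :=
  ∀ (G T : Type) [Group G] [Finite G] [Fintype T] (p : ℕ) [Fact p.Prime],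
    IsOp p (⊤ : Subgroup G) ⊥ → ∀ C : Finset (Subgroup (T → G)), IsRadical p C → ∀ P ∈ C,
      P = Subgroup.pi Set.univ fun t => P.map (Pi.evalMonoidHom (fun _ => G) t)

open Classical in
/-- PJ. The projections of a radical chain are radical chains. (For `P` in `C` and `Q = P_t` the
truncation of the projection at `Q` is the projection of the truncation of `C` at `P`; the
normaliser of a truncation is a product; PO ⇒.) -/
def PJ_stmt : Prop :=
  ∀ (G T : Type) [Group G] [Finite G] [Fintype T] (p : ℕ) [Fact p.Prime],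
    IsOp p (⊤ : Subgroup G) ⊥ → ∀ C : Finset (Subgroup (T → G)), IsRadical p C → ∀ t : T,
      IsRadical p (C.image fun P => P.map (Pi.evalMonoidHom (fun _ => G) t))

/-- AS. The chain with given components and path. (Its terms below the term with vector `r` have
components `nth (C t) j`, `j ≤ r t`, by IsPath; PO ⇐.) -/
def AS_stmt : Prop :=
  ∀ (G T : Type) [Group G] [Finite G] [Fintype T] (p : ℕ) [Fact p.Prime],
    IsOp p (⊤ : Subgroup G) ⊥ → ∀ (C : T → Finset (Subgroup G)), (∀ t, IsRadical p (C t)) →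
      ∀ W : Finset (T → ℕ), IsPath (fun t => (C t).card - 1) W →
        IsRadical p (asmC C W) ∧ (asmC C W).card = W.card ∧
        nrm (asmC C W) = Subgroup.pi Set.univ fun t => nrm (C t)

/-- AU. Uniqueness of components and path. (The projections of `asmC C W` are the `C t`.) -/
def AU_stmt : Prop :=
  ∀ (G T : Type) [Group G] [Finite G] [Fintype T] (p : ℕ) [Fact p.Prime],
    IsOp p (⊤ : Subgroup G) ⊥ → ∀ (C D : T → Finset (Subgroup G)), (∀ t, IsRadical p (C t)) →
      (∀ t, IsRadical p (D t)) → ∀ W V : Finset (T → ℕ), IsPath (fun t => (C t).card - 1) W →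
        IsPath (fun t => (D t).card - 1) V → asmC C W = asmC D V → C = D ∧ W = V

/-- AX. Existence of components and path. (Components: the projections, PJ; the vector of a term
`P` is `t ↦ rk (C t) (P_t)`, PR0.) -/
def AX_stmt : Prop :=
  ∀ (G T : Type) [Group G] [Finite G] [Fintype T] (p : ℕ) [Fact p.Prime],
    IsOp p (⊤ : Subgroup G) ⊥ → ∀ C' : Finset (Subgroup (T → G)), IsRadical p C' →
      ∃ (C : T → Finset (Subgroup G)) (W : Finset (T → ℕ)), (∀ t, IsRadical p (C t)) ∧
        IsPath (fun t => (C t).card - 1) W ∧ asmC C W = C'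

/-- AE. The action of `KE X c` on assembled chains. -/
def AE_stmt : Prop :=
  ∀ (G E A L T : Type) [Group G] [Group E] [Group A] [Group L] [MulAction L T] [Finite G]
    [Fintype T] (X : Extension G E A) (c : Cocycle L T A) (e : KE X c)
    (C : T → Finset (Subgroup G)) (W : Finset (T → ℕ)),
    chainMap ((kext X c).act e) (asmC C W) =
      asmC (fun s => chainMap (X.act (e.f (e.l⁻¹ • s))) (C (e.l⁻¹ • s))) (wAct e.l W)

/-! ### characters -/

/-- IRF. Finiteness, degrees and conjugation invariance. (Finiteness: distinct irreducible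
characters are orthonormal, `Representation.char_orthonormal`, so linearly independent in
`H → ℂ`.) -/
def IRF_stmt : Prop :=
  ∀ (H : Type) [Group H] [Finite H], (Irr H).Finite ∧ ∀ χ ∈ Irr H,
    (∃ n : ℕ, 0 < n ∧ χ 1 = n) ∧ (∀ g h, χ (h * g * h⁻¹) = χ g) ∧
    ∑ᶠ g : H, χ g * χ g⁻¹ = Nat.card H

/-- IRT. Transport. -/
def IRT_stmt : Prop :=
  ∀ (H K : Type) [Group H] [Group K] (e : H ≃* K), ∀ χ ∈ Irr K, (fun h => χ (e h)) ∈ Irr H

/-- IRP2. The product of two irreducible characters. (Tensor product of the representations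
pulled back to `H × K`; irreducible because its norm is one: a representation of a finite group
over `ℂ` whose character has norm one is irreducible.) -/
def IRP2_stmt : Prop :=
  ∀ (H K : Type) [Group H] [Group K] [Finite H] [Finite K], ∀ α ∈ Irr H, ∀ β ∈ Irr K,
    (fun x : H × K => α x.1 * β x.2) ∈ Irr (H × K)

/-- IRC2. Every irreducible character of `H × K` is a product. (Let `V` be the module, `W ≤ V` a
simple `H`-submodule; `Hom_H(W, V)` is a `K`-module and `W ⊗ Hom_H(W, V) → V` is surjective, as its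
image is stable, and injective by Schur; so `θ = α ⊗ β'` with `β'` the character of
`Hom_H(W, V)`, which is irreducible as `θ` has norm one. Any other proof is welcome.) -/
def IRC2_stmt : Prop :=
  ∀ (H K : Type) [Group H] [Group K] [Finite H] [Finite K], ∀ θ ∈ Irr (H × K),
    ∃ α ∈ Irr H, ∃ β ∈ Irr K, θ = fun x => α x.1 * β x.2

/-- IRP. Finite products, by induction on `T` (`Fintype.induction_empty_option`). -/
def IRP_stmt : Prop :=
  ∀ (T : Type) [Fintype T] (H : T → Type) [∀ t, Group (H t)] [∀ t, Finite (H t)]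
    (χ : ∀ t, H t → ℂ), (∀ t, χ t ∈ Irr (H t)) → (fun x : ∀ t, H t => ∏ t, χ t (x t)) ∈
      Irr (∀ t, H t)

/-- IRC. Every irreducible character of a finite product is a product. -/
def IRC_stmt : Prop :=
  ∀ (T : Type) [Fintype T] (H : T → Type) [∀ t, Group (H t)] [∀ t, Finite (H t)],
    ∀ θ ∈ Irr (∀ t, H t), ∃ χ : ∀ t, H t → ℂ, (∀ t, χ t ∈ Irr (H t)) ∧
      θ = fun x => ∏ t, χ t (x t)

/-- IRU. Uniqueness of the factors. (Evaluate at elements with one nontrivial coordinate: the
factors are proportional with a positive factor; both have norm one.) -/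
def IRU_stmt : Prop :=
  ∀ (T : Type) [Fintype T] (H : T → Type) [∀ t, Group (H t)] [∀ t, Finite (H t)]
    (χ φ : ∀ t, H t → ℂ), (∀ t, χ t ∈ Irr (H t)) → (∀ t, φ t ∈ Irr (H t)) →
      (∀ x : ∀ t, H t, ∏ t, χ t (x t) = ∏ t, φ t (x t)) → χ = φ

/-- IO. Irreducible characters of product subgroups. -/
def IO_stmt : Prop :=
  ∀ (G T : Type) [Group G] [Finite G] [Fintype T] (H : T → Subgroup G),
    (∀ ψ : T → G → ℂ, (∀ t, ψ t ∈ IrrOn (H t)) → tens ψ ∈ IrrOn (Subgroup.pi Set.univ H)) ∧
    (∀ ψ' ∈ IrrOn (Subgroup.pi Set.univ H : Subgroup (T → G)), ∃ ψ : T → G → ℂ,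
      (∀ t, ψ t ∈ IrrOn (H t)) ∧ tens ψ = ψ') ∧
    (∀ ψ φ : T → G → ℂ, (∀ t, ψ t ∈ IrrOn (H t)) → (∀ t, φ t ∈ IrrOn (H t)) →
      tens ψ = tens φ → ψ = φ)

/-- IF. Facts on `IrrOn`. -/
def IF_stmt : Prop :=
  ∀ (G : Type) [Group G] [Finite G] (H : Subgroup G), (IrrOn H).Finite ∧ ∀ ψ ∈ IrrOn H,
    (∃ n : ℕ, 0 < n ∧ ψ 1 = n) ∧ (∀ h ∈ H, ∀ g, ψ (h * g * h⁻¹) = ψ g) ∧
    (∀ α : MulAut G, funMap α ψ ∈ IrrOn (H.map α.toMonoidHom))

/-- TI. `Irr G` and `IrrOn ⊤`. -/
def TI_stmt : Prop :=
  ∀ (G : Type) [Group G] (χ : G → ℂ), (χ ∈ IrrOn (⊤ : Subgroup G) ↔ χ ∈ Irr G)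

/-- OI. The values of central characters are algebraic integers. (The sum `z` in `ℤ[H]` of the
elements of `H` which are conjugate to `g` in `G` is central in `ℤ[H]` and integral over `ℤ`; it
acts on the module of `ψ` as the scalar `omega ψ g`, by Schur and the trace.) -/
def OI_stmt : Prop :=
  ∀ (G : Type) [Group G] [Finite G] (H : Subgroup G), ∀ ψ ∈ IrrOn H, ∀ g : G,
    IsIntegral ℤ (omega ψ g)

/-- OP. Central characters of a product (pure computation: conjugacy classes of `T → G` are
products). -/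
def OP_stmt : Prop :=
  ∀ (G T : Type) [Group G] [Finite G] [Fintype T] (ψ : T → G → ℂ) (x : T → G),
    omega (tens ψ) x = ∏ t, omega (ψ t) (x t)

/-- OM. Naturality. -/
def OM_stmt : Prop :=
  ∀ (G : Type) [Group G] [Finite G] (α : MulAut G) (ψ : G → ℂ) (g : G),
    omega (funMap α ψ) (α g) = omega ψ g

/-- IM. `Induces` is an equivalence and is invariant under automorphisms. -/
def IM_stmt : Prop :=
  ∀ (G : Type) [Group G] [Finite G] (M : Ideal (integralClosure ℤ ℂ)) (ψ φ θ : G → ℂ),
    Induces M ψ ψ ∧ (Induces M ψ φ → Induces M φ ψ) ∧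
    (Induces M ψ φ → Induces M φ θ → Induces M ψ θ) ∧
    (∀ α : MulAut G, (Induces M (funMap α ψ) (funMap α φ) ↔ Induces M ψ φ))

/-- IP. Induced blocks of products. (⇐: product of congruences of algebraic integers. ⇒: take an
element with one nontrivial coordinate, `omega ψ 1 = 1`.) -/
def IP_stmt : Prop :=
  ∀ (G T : Type) [Group G] [Finite G] [Fintype T] (M : Ideal (integralClosure ℤ ℂ))
    (H : T → Subgroup G) (ψ χ : T → G → ℂ), (∀ t, ψ t ∈ IrrOn (H t)) →
    (∀ t, χ t ∈ Irr G) → (Induces M (tens ψ) (tens χ) ↔ ∀ t, Induces M (ψ t) (χ t))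

/-- PT. The block of `tens χ` (all factors equal). -/
def PT_stmt : Prop :=
  ∀ (G T : Type) [Group G] [Finite G] [Fintype T] (p : ℕ) [Fact p.Prime]
    (M : Ideal (integralClosure ℤ ℂ)), ∀ χ ∈ Irr G,
    tens (fun _ : T => χ) ∈ Irr (T → G) ∧
    (Nonempty T → PosDefect p M χ → PosDefect p M (tens fun _ : T => χ)) ∧
    (IsOp p (⊤ : Subgroup G) ⊥ → IsOp p (⊤ : Subgroup (T → G)) ⊥)

/-! ### extensions and classes of pairs -/

/-- The block of `χ` is stable under `E`. -/
def Stable {G E A : Type} [Group G] [Group E] [Group A] (X : Extension G E A)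
    (M : Ideal (integralClosure ℤ ℂ)) (χ : G → ℂ) : Prop :=
  ∀ e : E, Induces M (funMap (X.act e) χ) χ

/-- SK. Stability and finiteness for the extension `kext X c`. (`funMap` of `tens χ` under `e` is
the product of the `funMap (X.act (e.f (e.l⁻¹ • s))) χ`.) -/
def SK_stmt : Prop :=
  ∀ (G E A L T : Type) [Group G] [Group E] [Group A] [Group L] [MulAction L T] [Finite G]
    [Fintype T] (X : Extension G E A) (c : Cocycle L T A) (M : Ideal (integralClosure ℤ ℂ)),
    (∀ (e : KE X c) (ψ : T → G → ℂ), funMap ((kext X c).act e) (tens ψ) =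
      tens fun s => funMap (X.act (e.f (e.l⁻¹ • s))) (ψ (e.l⁻¹ • s))) ∧
    (∀ χ ∈ Irr G, Stable X M χ → Stable (kext X c) M (tens fun _ : T => χ)) ∧
    (Finite E → Finite L → Finite (KE X c)) ∧ (Finite E → Finite A)

/-- The finite `A`-set `S` together with the map `cls` is the `A`-set of `G`-classes of pairs for
the block of `χ`. -/
structure IsCls {G E A : Type} [Group G] [Group E] [Group A] (X : Extension G E A) (p : ℕ)
    (M : Ideal (integralClosure ℤ ℂ)) (χ : G → ℂ) (S : SSet A)
    (cls : {x // IsPair p M χ x} → S.Z) : Prop where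
  surj : Function.Surjective cls
  eq_iff : ∀ x y, cls x = cls y ↔ ∃ g : G, pairMap (MulAut.conj g) x.1 = y.1
  len : ∀ x, S.len (cls x) = len x.1
  dfc : ∀ x, S.dfc (cls x) = dfc p x.1
  act : ∀ e x y, pairMap (X.act e) x.1 = y.1 → S.act (X.proj e) (cls x) = cls y

/-- PM. Basic facts on pairs. -/
def PM_stmt : Prop :=
  ∀ (G : Type) [Group G] [Finite G] (p : ℕ) (M : Ideal (integralClosure ℤ ℂ)) (χ : G → ℂ)
    (x : Finset (Subgroup G) × (G → ℂ)),
    (∀ α β : MulAut G, pairMap (α * β) x = pairMap α (pairMap β x)) ∧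
    pairMap (1 : MulAut G) x = x ∧ (∀ α : MulAut G, len (pairMap α x) = len x) ∧
    (∀ α : MulAut G, dfc p (pairMap α x) = dfc p x) ∧
    (∀ α : MulAut G, Induces M (funMap α χ) χ → IsPair p M χ x → IsPair p M χ (pairMap α x)) ∧
    (IsPair p M χ x → ∀ g : G, IsPair p M χ (pairMap (MulAut.conj g) x)) ∧
    (IsPair p M χ x → ∀ g ∈ nrm x.1, pairMap (MulAut.conj g) x = x) ∧
    {x | IsPair p M χ x}.Finite

/-- CL0. Existence of the `A`-set of classes of pairs. -/
def CL0_stmt : Prop :=
  ∀ (G E A : Type) [Group G] [Group E] [Group A] [Finite G] (X : Extension G E A) (p : ℕ)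
    (M : Ideal (integralClosure ℤ ℂ)), ∀ χ ∈ Irr G, Stable X M χ →
    ∃ (S : SSet A) (cls : {x // IsPair p M χ x} → S.Z), IsCls X p M χ S cls

/-- CL1. The alternating sum counts classes of pairs. (The fibre over the class of `C` of the map
from classes of pairs to classes of chains is the set of all admissible characters of `nrm C`, by
SN and PM; `a` fixes the class of `x` iff `a` is in the image of the stabiliser of `x`.) -/
def CL1_stmt : Prop :=
  ∀ (G E A : Type) [Group G] [Group E] [Group A] [Finite G] (X : Extension G E A) (p : ℕ)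
    (M : Ideal (integralClosure ℤ ℂ)), ∀ χ ∈ Irr G, Stable X M χ →
    ∀ (S : SSet A) (cls : {x // IsPair p M χ x} → S.Z), IsCls X p M χ S cls →
      ∀ (d : ℤ) (U : Subgroup A), altSum X p M χ d U = S.num d U

/-- IS. Isomorphic sets have the same numbers. -/
def IS_stmt : Prop :=
  ∀ (A : Type) [Group A] (S S' : SSet A), S.Iso S' → ∀ (d : ℤ) (U : Subgroup A),
    S.num d U = S'.num d U ∧ S.fix d U = S'.fix d U

/-- PA. Assembled pairs: pairs of `T → G` are the same as families of pairs of `G` with a path. -/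
def PA_stmt : Prop :=
  ∀ (G T : Type) [Group G] [Finite G] [Fintype T] (p : ℕ) [Fact p.Prime]
    (M : Ideal (integralClosure ℤ ℂ)), IsOp p (⊤ : Subgroup G) ⊥ → ∀ χ ∈ Irr G,
    (∀ (x : T → Finset (Subgroup G) × (G → ℂ)) (W : Finset (T → ℕ)),
      (∀ t, IsPair p M χ (x t)) → IsPath (fun t => len (x t)) W →
        IsPair p M (tens fun _ : T => χ) (asm x W) ∧ len (asm x W) = W.card - 1 ∧
        dfc p (asm x W) = ∑ t, dfc p (x t)) ∧
    (∀ x', IsPair p M (tens fun _ : T => χ) x' →
      ∃ (x : T → Finset (Subgroup G) × (G → ℂ)) (W : Finset (T → ℕ)),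
      (∀ t, IsPair p M χ (x t)) ∧ IsPath (fun t => len (x t)) W ∧ asm x W = x') ∧
    (∀ (x y : T → Finset (Subgroup G) × (G → ℂ)) (W V : Finset (T → ℕ)),
      (∀ t, IsPair p M χ (x t)) → (∀ t, IsPair p M χ (y t)) → IsPath (fun t => len (x t)) W →
        IsPath (fun t => len (y t)) V → asm x W = asm y V → x = y ∧ W = V)

/-- PE. Equivariance of `asm` (from AE and the first item of SK). -/
def PE_stmt : Prop :=
  ∀ (G E A L T : Type) [Group G] [Group E] [Group A] [Group L] [MulAction L T] [Finite G]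
    [Fintype T] (X : Extension G E A) (c : Cocycle L T A) (e : KE X c)
    (x : T → Finset (Subgroup G) × (G → ℂ)) (W : Finset (T → ℕ)),
    pairMap ((kext X c).act e) (asm x W) =
      asm (fun s => pairMap (X.act (e.f (e.l⁻¹ • s))) (x (e.l⁻¹ • s))) (wAct e.l W)

/-- PR. The classes of pairs of `T → G` for `kext X c` form the path set of the classes of pairs
of `G`. (Send the class of `asm x W` to `(cls ∘ x, W)`. Well defined and injective: the action of
`g : T → G` by conjugation is the action of `(kext X c).inc g`, which acts on each coordinate by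
conjugation and does not change `W`. Surjective: choose representatives. Equivariant: PE.) -/
def PR_stmt : Prop :=
  ∀ (G E A L T : Type) [Group G] [Group E] [Group A] [Group L] [MulAction L T] [Finite G]
    [Fintype T] (X : Extension G E A) (c : Cocycle L T A) (p : ℕ) [Fact p.Prime]
    (M : Ideal (integralClosure ℤ ℂ)), IsOp p (⊤ : Subgroup G) ⊥ → ∀ χ ∈ Irr G, Stable X M χ →
    ∀ (S : SSet A) (cls : {x // IsPair p M χ x} → S.Z), IsCls X p M χ S cls →
    ∀ (S' : SSet L) (cls' : {x // IsPair p M (tens fun _ : T => χ) x} → S'.Z),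
      IsCls (kext X c) p M (tens fun _ : T => χ) S' cls' → S'.Iso (pathS S c)

/-- RE. Restriction to a subgroup `U` of `A` (no stability is assumed): the stabiliser in `U` of a
pair is the intersection of its stabiliser in `A` with `U`. -/
def RE_stmt : Prop :=
  ∀ (G E A : Type) [Group G] [Group E] [Group A] [Finite G] [Finite E] (X : Extension G E A)
    (p : ℕ) (M : Ideal (integralClosure ℤ ℂ)), ∀ χ ∈ Irr G, ∀ (d : ℤ) (U : Subgroup A),
    altSum (resE X U) p M χ d ⊤ = ∑ᶠ V : {V : Subgroup A // U ≤ V}, altSum X p M χ d V.1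

/-- ST. If some alternating sum for `U = ⊤` is not zero, the block is stable. (There is a pair
`(C, ψ)` whose stabiliser maps onto `A`; then `e = n * inc g` with `n` in the stabiliser.) -/
def ST_stmt : Prop :=
  ∀ (G E A : Type) [Group G] [Group E] [Group A] [Finite G] (X : Extension G E A)
    (p : ℕ) (M : Ideal (integralClosure ℤ ℂ)), ∀ χ ∈ Irr G, ∀ d : ℤ,
    altSum X p M χ d ⊤ ≠ 0 → Stable X M χ

end Pool.Agent.helper58.DC
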