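import Mathlib
import Pool.Agent.helper58.DC.Spec1

/-!
# Project dq (MP_baa4d7_al), part 2: combinatorics of path sets, final theorems
-/

set_option autoImplicit false

namespace Pool.Agent.helper58.DC

/-! ### paths -/

/-- PSG. The signed number of paths. Proof: induction on `∑ a t`. If `a = 0` the only path is
`{0}`. Otherwise `a ∈ W` is the largest vector, `W' = W \ {a}` is nonempty with largest vector
`a - 1_J` for a nonempty set `J` of indices with `a t > 0` (the value `a t - 1` is taken), and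
`W'` is a path for `a - 1_J`; conversely. So the sum is
`- ∑_{∅ ≠ J ⊆ supp a} ∏ (-1)^(a - 1_J) = ∏ (-1)^a`. -/
def PSG_stmt : Prop :=
  ∀ (T : Type) [Fintype T] (a : T → ℕ),
    ∑ᶠ W : {W : Finset (T → ℕ) // IsPath a W}, (-1 : ℤ) ^ (W.1.card - 1) = ∏ t, (-1 : ℤ) ^ a t

/-- IVP. An element of `L` fixes a chain of vectors iff it fixes each of them. (Both `r` and its
image are in the chain and have the same sum of entries.) -/
def IVP_stmt : Prop :=
  ∀ (L T : Type) [Group L] [MulAction L T] [Fintype T] (l : L) (W : Finset (T → ℕ)),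
    IsChain (· ≤ ·) (W : Set (T → ℕ)) → (wAct l W = W ↔ ∀ r ∈ W, ∀ t, r (l • t) = r t)

/-- OS. The signed number of `V`-invariant paths. (By IVP these are the pull backs of the paths of
`orbitRel.Quotient V T`; PSG.) -/
def OS_stmt : Prop :=
  ∀ (L T : Type) [Group L] [MulAction L T] [Fintype T] (V : Subgroup L) (a : T → ℕ),
    (∀ v ∈ V, ∀ t, a (v • t) = a t) →
    ∑ᶠ W : {W : Finset (T → ℕ) // IsPath a W ∧ ∀ v ∈ V, wAct v W = W}, (-1 : ℤ) ^ (W.1.card - 1) =
      ∏ᶠ O : MulAction.orbitRel.Quotient V T, (-1 : ℤ) ^ a O.out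

/-- FX. The signed number of `V`-fixed elements of a path set. -/
def FX_stmt : Prop :=
  ∀ (A L T : Type) [Group A] [Group L] [MulAction L T] [Fintype T] (S : SSet A)
    (c : Cocycle L T A) (d : ℤ) (V : Subgroup L),
    (pathS S c).fix d V = ∑ᶠ z : {z : T → S.Z // (∀ l ∈ V, ∀ t, z (l • t) = S.act (c.κ l t) (z t)) ∧
      ∑ t, S.dfc (z t) = d}, ∏ᶠ O : MulAction.orbitRel.Quotient V T, (-1 : ℤ) ^ S.len (z.1 O.out)

/-- TP. Top coefficient of a product. (Group the functions `y` by their degrees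
`e t = δ (y t)`; the sum over the functions with given degrees is a product, and it vanishes if
some `e t > D`.) -/
def TP_stmt : Prop :=
  ∀ (Y T : Type) [Finite Y] [Fintype T] (s δ : Y → ℤ) (m : T → ℕ) (D : ℤ), (∀ t, 0 < m t) →
    (∀ d > D, ∑ᶠ y : {y : Y // δ y = d}, s y.1 = 0) →
    ∑ᶠ y : {y : T → Y // ∑ t, (m t : ℤ) * δ (y t) = (∑ t, (m t : ℤ)) * D}, ∏ t, s (y.1 t) =
      (∑ᶠ y : {y : Y // δ y = D}, s y.1) ^ Fintype.card T

/-- MB. Elements fixed by `U` by their stabilisers. -/
def MB_stmt : Prop :=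
  ∀ (A : Type) [Group A] [Finite A] (S : SSet A) (d : ℤ) (U : Subgroup A),
    S.fix d U = ∑ᶠ V : {V : Subgroup A // U ≤ V}, S.num d V.1

/-- TR. `r` copies of a transitive set `Q`: fixed elements are given by `r` elements of `S` fixed
by `A` (the values at the base points `(q₀, i)`); then TP with all `m = card Q`. -/
def TR_stmt : Prop :=
  ∀ (A L Q : Type) [Group A] [Group L] [MulAction L Q] [Fintype Q]
    [MulAction.IsPretransitive L Q] (S : SSet A) (c : Cocycle L Q A) (q₀ : Q) (r : ℕ) (D : ℤ),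
    (∀ a : A, ∃ l : L, l • q₀ = q₀ ∧ c.κ l q₀ = a) → (∀ d > D, S.fix d ⊤ = 0) →
      (pathS S (cocR c r)).fix ((Fintype.card Q : ℤ) * r * D) ⊤ = (S.fix D ⊤) ^ r

/-- WF. Fixed elements for subgroups of the wreath product which contain the base group:
`z` takes values in the elements fixed by `A` and is constant on the orbits of `V`; TP with
`m = card` of the orbits. -/
def WF_stmt : Prop :=
  ∀ (A : Type) [Group A] (S : SSet A) (n : ℕ) (D : ℤ) (V : Subgroup (Equiv.Perm (Fin n))),
    (∀ d > D, S.fix d ⊤ = 0) →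
      (pathS S (wrC A n)).fix ((n : ℤ) * D) (wrU A V) =
        (S.fix D ⊤) ^ Nat.card (MulAction.orbitRel.Quotient V (Fin n))

/-- MP. Möbius inversion by polynomials. Downward induction on `V` gives polynomials `B V` over
`ℚ`, independent of `b` and `v`, with `b V = B V (v)`. For a natural number `v = x` the function
`b V` = number of maps `Fin n → Fin x` with stabiliser exactly `V` satisfies the hypothesis, and
`b ⊥ = x.descFactorial n`. So `B ⊥` is the descending Pochhammer polynomial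
(`Ring.descPochhammer_eq_factorial_smul_choose`). -/
def MP_stmt : Prop :=
  ∀ (n : ℕ) (b : Subgroup (Equiv.Perm (Fin n)) → ℤ) (v : ℤ),
    (∀ V, ∑ᶠ V' : {V' : Subgroup (Equiv.Perm (Fin n)) // V ≤ V'}, b V'.1 =
      v ^ Nat.card (MulAction.orbitRel.Quotient V (Fin n))) →
    b ⊥ = n.factorial * Ring.choose v n

/-- WN. The number of elements with stabiliser exactly the base group (MB, WF, MP; the subgroups
of `Wr A n` which contain `wrU A ⊥` are the `wrU A V`). -/
def WN_stmt : Prop :=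
  ∀ (A : Type) [Group A] [Finite A] (S : SSet A) (n : ℕ) (D : ℤ), (∀ d > D, S.fix d ⊤ = 0) →
    (pathS S (wrC A n)).num ((n : ℤ) * D) (wrU A ⊥) = n.factorial * Ring.choose (S.fix D ⊤) n

/-- NB. Some binomial coefficient of a nonzero integer is not divisible by `q`. (`v > 0`:
`n = v`. `v = -m`: `± (m + n - 1).choose n` with `n = q ^ k ≥ m`.) -/
def NB_stmt : Prop :=
  ∀ (q : ℕ), q.Prime → ∀ v : ℤ, v ≠ 0 → ∃ n : ℕ, 1 ≤ n ∧ ¬ (q : ℤ) ∣ Ring.choose v n

/-- EM. Embedding in alternating groups. (Let `a` act on two copies of `A`, and trivially on the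
other points.) -/
def EM_stmt : Prop :=
  ∀ (A : Type) [Group A] [Finite A], ∃ m₁ : ℕ, ∀ m ≥ m₁,
    ∃ j : A →* alternatingGroup (Fin m), Function.Injective j

/-- CO. The cocycle of the coset space `L ⧸ j.range`. -/
def CO_stmt : Prop :=
  ∀ (A L : Type) [Group A] [Group L] [Finite L] (j : A →* L), Function.Injective j →
    ∃ (Q : Type) (_ : Fintype Q) (_ : MulAction L Q) (c : Cocycle L Q A) (q₀ : Q),
      MulAction.IsPretransitive L Q ∧ ∀ a : A, ∃ l : L, l • q₀ = q₀ ∧ c.κ l q₀ = a

/-- WQ. The wreath product and its quotient. -/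
def WQ_stmt : Prop :=
  ∀ (A : Type) [Group A] (n : ℕ), (wrU A (⊥ : Subgroup (Equiv.Perm (Fin n)))).Normal ∧
    (∀ _ : (wrU A (⊥ : Subgroup (Equiv.Perm (Fin n)))).Normal,
      Nonempty ((Wr A n ⧸ wrU A (⊥ : Subgroup (Equiv.Perm (Fin n)))) ≃* Equiv.Perm (Fin n))) ∧
    (Finite A → Finite (Wr A n))

/-! ### final theorems -/

/-- The hypothesis of the parity criterion: for all data with a stable block, a normal subgroup
`U` of `A` and `A ⧸ U` isomorphic to the symmetric group of degree `n`, the alternating sum is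
divisible by `q * n!`. -/
def ModHyp (p q : ℕ) (M : Ideal (integralClosure ℤ ℂ)) : Prop :=
  ∀ (G E A : Type) [Group G] [Group E] [Group A] [Finite G] [Finite E] (X : Extension G E A),
    IsOp p (⊤ : Subgroup G) ⊥ → ∀ χ ∈ Irr G, PosDefect p M χ → Stable X M χ →
    ∀ (n : ℕ) (U : Subgroup A) [U.Normal], Nonempty ((A ⧸ U) ≃* Equiv.Perm (Fin n)) →
      ∀ d : ℤ, ((q : ℤ) * n.factorial) ∣ altSum X p M χ d U

/-- The hypothesis of the second theorem: for all data with `A` the alternating group of degree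
`m ≥ m₀`, a stable block and a multiple `d` of `N` the alternating sum for `U = A` is not
positive. -/
def AltHyp (p N m₀ : ℕ) (M : Ideal (integralClosure ℤ ℂ)) : Prop :=
  ∀ m ≥ m₀, ∀ (G E : Type) [Group G] [Group E] [Finite G] [Finite E]
    (X : Extension G E (alternatingGroup (Fin m))),
    IsOp p (⊤ : Subgroup G) ⊥ → ∀ χ ∈ Irr G, PosDefect p M χ → Stable X M χ →
      ∀ d : ℤ, (N : ℤ) ∣ d → altSum X p M χ d ⊤ ≤ 0

/-- RS. Reduction to `U = ⊤` and to the largest `d` (RE, ST: take a maximal `U` for which some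
alternating sum is not zero). -/
def RS_stmt : Prop :=
  ∀ (p : ℕ) (M : Ideal (integralClosure ℤ ℂ)), ¬ Dade p M →
    ∃ (G E A : Type) (_ : Group G) (_ : Group E) (_ : Group A) (_ : Finite G) (_ : Finite E)
      (X : Extension G E A) (χ : G → ℂ) (D : ℤ), IsOp p (⊤ : Subgroup G) ⊥ ∧ χ ∈ Irr G ∧
      PosDefect p M χ ∧ Stable X M χ ∧ altSum X p M χ D ⊤ ≠ 0 ∧
      ∀ d > D, altSum X p M χ d ⊤ = 0

/-- FN. Only finitely many `d` matter (each pair determines its `d`, and there are finitely many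
pairs). -/
def FN_stmt : Prop :=
  ∀ (G E A : Type) [Group G] [Group E] [Group A] [Finite G] (X : Extension G E A) (p : ℕ)
    (M : Ideal (integralClosure ℤ ℂ)) (χ : G → ℂ) (U : Subgroup A),
    {d : ℤ | altSum X p M χ d U ≠ 0}.Finite

/-- FA. The parity criterion. -/
def FA_stmt : Prop :=
  ∀ (p q : ℕ) [Fact p.Prime], q.Prime → ∀ M : Ideal (integralClosure ℤ ℂ),
    (Dade p M ↔ ModHyp p q M)

/-- FB. One inequality, for alternating groups. -/
def FB_stmt : Prop :=
  ∀ (p N m₀ : ℕ) [Fact p.Prime], 1 ≤ N → ∀ M : Ideal (integralClosure ℤ ℂ),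
    (Dade p M ↔ AltHyp p N m₀ M)

end Pool.Agent.helper58.DC
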