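import Mathlib
import Pool.Agent.helper58.DC.Spec2

/-! Final theorem A (parity criterion). -/

set_option autoImplicit false

namespace Pool.Agent.helper58.DC

theorem fix_top {A : Type} [Group A] (S : SSet A) (d : ℤ) : S.fix d ⊤ = S.num d ⊤ := by
  classical
  unfold SSet.fix SSet.num
  refine finsum_congr fun z => ?_
  have h : (∀ a ∈ (⊤ : Subgroup A), S.act a z = z) ↔ (∀ a, a ∈ (⊤ : Subgroup A) ↔ S.act a z = z) := by
    simp
  by_cases h1 : S.dfc z = d ∧ ∀ a ∈ (⊤ : Subgroup A), S.act a z = z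
  · rw [if_pos h1, if_pos ⟨h1.1, h.1 h1.2⟩]
  · rw [if_neg h1, if_neg (fun h2 => h1 ⟨h2.1, h.2 h2.2⟩)]

/-- The alternating sum for the cocycle extension. -/
theorem altSum_kext (hCL0 : CL0_stmt) (hCL1 : CL1_stmt) (hPR : PR_stmt) (hIS : IS_stmt)
    (hPT : PT_stmt) (hSK : SK_stmt)
    (G E A L T : Type) [Group G] [Group E] [Group A] [Group L] [MulAction L T] [Finite G]
    [Fintype T] (X : Extension G E A) (c : Cocycle L T A) (p : ℕ) [Fact p.Prime]
    (M : Ideal (integralClosure ℤ ℂ)) (hop : IsOp p (⊤ : Subgroup G) ⊥) (χ : G → ℂ)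
    (hχ : χ ∈ Irr G) (hst : Stable X M χ) :
    ∃ S : SSet A, (∀ (d : ℤ) (U : Subgroup A), altSum X p M χ d U = S.num d U) ∧
      ∀ (d : ℤ) (V : Subgroup L), altSum (kext X c) p M (tens fun _ : T => χ) d V =
        (pathS S c).num d V := by
  obtain ⟨S, cls, hcls⟩ := hCL0 G E A X p M χ hχ hst
  have hχ' := (hPT G T p M χ hχ).1
  have hst' := (hSK G E A L T X c M).2.1 χ hχ hst
  obtain ⟨S', cls', hcls'⟩ := hCL0 (T → G) (KE X c) L (kext X c) p M _ hχ' hst'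
  refine ⟨S, fun d U => hCL1 G E A X p M χ hχ hst S cls hcls d U, fun d V => ?_⟩
  rw [hCL1 (T → G) (KE X c) L (kext X c) p M _ hχ' hst' S' cls' hcls' d V]
  exact (hIS L S' (pathS S c) (hPR G E A L T X c p M hop χ hχ hst S cls hcls S' cls' hcls') d V).1

theorem FA (hRS : RS_stmt) (hCL0 : CL0_stmt) (hCL1 : CL1_stmt) (hPR : PR_stmt) (hIS : IS_stmt)
    (hPT : PT_stmt) (hSK : SK_stmt) (hWN : WN_stmt) (hNB : NB_stmt) (hWQ : WQ_stmt) :
    FA_stmt := by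
  intro p q _ hq M
  constructor
  · intro h G E A _ _ _ _ _ X hop χ hχ hpd _ n U _ _ d
    rw [h G E A X hop χ hχ hpd d U]
    exact dvd_zero _
  · intro h
    by_contra hD
    obtain ⟨G, E, A, _, _, _, _, _, X, χ, D, hop, hχ, hpd, hst, hne, htop⟩ := hRS p M hD
    have : Finite A := (hSK G E A Unit Unit X ⟨fun _ _ => 1, fun _ _ _ => (one_mul _).symm⟩ M).2.2.2
      inferInstance
    obtain ⟨n, hn, hnq⟩ := hNB q hq _ hne
    obtain ⟨S, hS, hS'⟩ := altSum_kext hCL0 hCL1 hPR hIS hPT hSK G E A (Wr A n) (Fin n) X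
      (wrC A n) p M hop χ hχ hst
    have hfix : ∀ d, S.fix d ⊤ = altSum X p M χ d ⊤ := fun d => by rw [fix_top, hS]
    have h1 := hWN A S n D (fun d hd => by rw [hfix, htop d hd])
    rw [← hS', hfix] at h1
    have : Finite (Wr A n) := (hWQ A n).2.2 inferInstance
    have : Finite (KE X (wrC A n)) := (hSK G E A (Wr A n) (Fin n) X (wrC A n) M).2.2.1
      inferInstance inferInstance
    have hN := (hWQ A n).1
    have hne' : Nonempty (Fin n) := ⟨⟨0, hn⟩⟩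
    have h2 := h (Fin n → G) (KE X (wrC A n)) (Wr A n) (kext X (wrC A n))
      ((hPT G (Fin n) p M χ hχ).2.2 hop) _ (hPT G (Fin n) p M χ hχ).1
      ((hPT G (Fin n) p M χ hχ).2.1 hne' hpd)
      ((hSK G E A (Wr A n) (Fin n) X (wrC A n) M).2.1 χ hχ hst) n (wrU A ⊥) ((hWQ A n).2.1 hN)
      ((n : ℤ) * D)
    rw [h1] at h2
    apply hnq
    have h3 : (n.factorial : ℤ) ≠ 0 := by exact_mod_cast n.factorial_ne_zero
    rw [mul_comm (q : ℤ)] at h2
    exact (mul_dvd_mul_iff_left h3).1 h2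

theorem FB (hRS : RS_stmt) (hCL0 : CL0_stmt) (hCL1 : CL1_stmt) (hPR : PR_stmt) (hIS : IS_stmt)
    (hPT : PT_stmt) (hSK : SK_stmt) (hTR : TR_stmt) (hEM : EM_stmt) (hCO : CO_stmt) :
    FB_stmt := by
  intro p N m₀ _ hN M
  constructor
  · intro h m _ G E _ _ _ _ X hop χ hχ hpd _ d _
    rw [h G E _ X hop χ hχ hpd d ⊤]
  · intro h
    by_contra hD
    obtain ⟨G, E, A, _, _, _, _, _, X, χ, D, hop, hχ, hpd, hst, hne, htop⟩ := hRS p M hD
    have : Finite A := (hSK G E A Unit Unit X ⟨fun _ _ => 1, fun _ _ _ => (one_mul _).symm⟩ M).2.2.2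
      inferInstance
    obtain ⟨m₁, hm₁⟩ := hEM A
    obtain ⟨j, hj⟩ := hm₁ (max m₀ m₁) (le_max_right _ _)
    obtain ⟨Q, _, _, c₀, q₀, htr, hq₀⟩ := hCO A (alternatingGroup (Fin (max m₀ m₁))) j hj
    obtain ⟨S, hS, hS'⟩ := altSum_kext hCL0 hCL1 hPR hIS hPT hSK G E A
      (alternatingGroup (Fin (max m₀ m₁))) (QR Q (2 * N)) X (cocR c₀ (2 * N)) p M hop χ hχ hst
    have hfix : ∀ d, S.fix d ⊤ = altSum X p M χ d ⊤ := fun d => by rw [fix_top, hS]
    have h1 := hTR A (alternatingGroup (Fin (max m₀ m₁))) Q S c₀ q₀ (2 * N) D hq₀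
      (fun d hd => by rw [hfix, htop d hd])
    rw [fix_top, ← hS', hfix] at h1
    have hfin : Finite (KE X (cocR c₀ (2 * N))) :=
      (hSK G E A (alternatingGroup (Fin (max m₀ m₁))) (QR Q (2 * N)) X (cocR c₀ (2 * N))
        M).2.2.1 inferInstance inferInstance
    have hne' : Nonempty (QR Q (2 * N)) := ⟨(q₀, ⟨0, by omega⟩)⟩
    have h2 := h (max m₀ m₁) (le_max_left _ _) (QR Q (2 * N) → G) (KE X (cocR c₀ (2 * N)))
      (kext X (cocR c₀ (2 * N))) ((hPT G (QR Q (2 * N)) p M χ hχ).2.2 hop) _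
      (hPT G (QR Q (2 * N)) p M χ hχ).1 ((hPT G (QR Q (2 * N)) p M χ hχ).2.1 hne' hpd)
      ((hSK G E A _ (QR Q (2 * N)) X (cocR c₀ (2 * N)) M).2.1 χ hχ hst)
      ((Fintype.card Q : ℤ) * ((2 * N : ℕ) : ℤ) * D)
      ⟨(Fintype.card Q : ℤ) * 2 * D, by push_cast; ring⟩
    rw [h1, pow_mul] at h2
    have h3 : 0 < (altSum X p M χ D ⊤ ^ 2) ^ N := pow_pos (by positivity) _
    omega

end Pool.Agent.helper58.DC
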