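import Mathlib
import Pool.Agent.helper58.DC.Spec2

/-! Module MP: Moebius inversion on the subgroups of the symmetric group. -/

set_option autoImplicit false

namespace Pool.Agent.helper58.DC

open Polynomial

/-- Inversion on a finite partial order. -/
theorem exists_mu {α : Type} [PartialOrder α] [Finite α] (x₀ : α) :
    ∃ μ : α → ℤ, ∀ b g : α → ℤ, (∀ x, ∑ᶠ y : {y : α // x ≤ y}, b y.1 = g x) →
      b x₀ = ∑ᶠ x, μ x * g x := by
  classical
  have := Fintype.ofFinite α
  induction x₀ using WellFoundedGT.induction with
  | ind x₀ ih =>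
    choose! μ hμ using ih
    refine ⟨fun x => (if x = x₀ then 1 else 0) - ∑ y ∈ Finset.univ.filter (x₀ < ·), μ y x, ?_⟩
    intro b g h
    have h1 : b x₀ = g x₀ - ∑ y ∈ Finset.univ.filter (x₀ < ·), b y := by
      rw [← h x₀, finsum_eq_sum_of_fintype,
        ← Finset.sum_subtype (Finset.univ.filter (x₀ ≤ ·)) (by simp) b]
      have h2 : Finset.univ.filter (x₀ ≤ ·) = insert x₀ (Finset.univ.filter (x₀ < ·)) := by
        ext y
        simp only [Finset.mem_filter, Finset.mem_univ, true_and, Finset.mem_insert]
        rw [le_iff_eq_or_lt]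
        constructor
        · rintro (h | h)
          · exact Or.inl h.symm
          · exact Or.inr h
        · rintro (h | h)
          · exact Or.inl h.symm
          · exact Or.inr h
      rw [h2, Finset.sum_insert (by simp)]
      ring
    rw [h1, finsum_eq_sum_of_fintype]
    have h3 : ∀ y ∈ Finset.univ.filter (x₀ < ·), b y = ∑ x, μ y x * g x := fun y hy => by
      rw [hμ y (by simpa using hy) b g h, finsum_eq_sum_of_fintype]
    rw [Finset.sum_congr rfl h3, Finset.sum_comm]
    simp only [sub_mul, ite_mul, one_mul, zero_mul, Finset.sum_sub_distrib, Finset.sum_ite_eq',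
      Finset.mem_univ, if_true, Finset.sum_mul]

/-- The stabiliser of a function. -/
def fstab {n x : ℕ} (f : Fin n → Fin x) : Subgroup (Equiv.Perm (Fin n)) where
  carrier := {σ | ∀ i, f (σ i) = f i}
  mul_mem' := by
    intro a b ha hb i
    rw [Equiv.Perm.mul_apply, ha, hb]
  one_mem' i := rfl
  inv_mem' := by
    intro a ha i
    have h1 : a (a⁻¹ i) = i := a.apply_symm_apply i
    have := ha (a⁻¹ i)
    rw [h1] at this
    exact this.symm

theorem card_inv_fun {n x : ℕ} (V : Subgroup (Equiv.Perm (Fin n))) :
    Nat.card {f : Fin n → Fin x // V ≤ fstab f} =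
      x ^ Nat.card (MulAction.orbitRel.Quotient V (Fin n)) := by
  classical
  have e : {f : Fin n → Fin x // V ≤ fstab f} ≃
      (MulAction.orbitRel.Quotient V (Fin n) → Fin x) :=
    { toFun := fun f => Quotient.lift f.1 (by
        intro i j hij
        obtain ⟨σ, rfl⟩ := hij
        exact f.2 σ.2 j)
      invFun := fun g => ⟨fun i => g (Quotient.mk _ i), by
        intro σ hσ i
        have : (Quotient.mk (MulAction.orbitRel V (Fin n)) (σ i)) = Quotient.mk _ i :=
          Quotient.sound ⟨⟨σ, hσ⟩, rfl⟩
        exact congrArg g this⟩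
      left_inv := fun f => rfl
      right_inv := fun g => by
        funext q
        induction q using Quotient.inductionOn with
        | h i => rfl }
  rw [Nat.card_congr e, Nat.card_fun]
  simp

theorem MP : MP_stmt := by
  classical
  intro n b v hb
  obtain ⟨μ, hμ⟩ := exists_mu (⊥ : Subgroup (Equiv.Perm (Fin n)))
  have hfin : Finite (Subgroup (Equiv.Perm (Fin n))) := inferInstance
  have := Fintype.ofFinite (Subgroup (Equiv.Perm (Fin n)))
  let k : Subgroup (Equiv.Perm (Fin n)) → ℕ := fun V =>
    Nat.card (MulAction.orbitRel.Quotient V (Fin n))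
  let P : ℤ[X] := ∑ V, C (μ V) * X ^ k V
  have hP : ∀ z : ℤ, P.eval z = ∑ V, μ V * z ^ k V := fun z => by
    simp [P, eval_finsetSum]
  have hv : b ⊥ = P.eval v := by
    rw [hμ b _ hb, finsum_eq_sum_of_fintype, hP]
  -- natural numbers
  have hnat : ∀ x : ℕ, P.eval (x : ℤ) = (x.descFactorial n : ℤ) := by
    intro x
    let β : Subgroup (Equiv.Perm (Fin n)) → ℤ := fun V =>
      (Nat.card {f : Fin n → Fin x // fstab f = V} : ℤ)
    have h1 : ∀ V, ∑ᶠ V' : {V' : Subgroup (Equiv.Perm (Fin n)) // V ≤ V'}, β V'.1 =
        (x : ℤ) ^ k V := by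
      intro V
      rw [finsum_eq_sum_of_fintype]
      have h2 := card_inv_fun (x := x) V
      have h3 : (Nat.card {f : Fin n → Fin x // V ≤ fstab f}) =
          ∑ V' : {V' : Subgroup (Equiv.Perm (Fin n)) // V ≤ V'},
            Nat.card {f : Fin n → Fin x // fstab f = V'.1} := by
        rw [← Nat.card_sigma]
        refine Nat.card_congr
          { toFun := fun f => ⟨⟨fstab f.1, f.2⟩, ⟨f.1, rfl⟩⟩
            invFun := fun y => ⟨y.2.1, by rw [y.2.2]; exact y.1.2⟩
            left_inv := fun f => rfl
            right_inv := fun y => by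
              rcases y with ⟨⟨V', hV'⟩, ⟨f, hf⟩⟩
              dsimp only at hf ⊢
              subst hf
              rfl }
      have h4 : (((∑ V' : {V' : Subgroup (Equiv.Perm (Fin n)) // V ≤ V'},
            Nat.card {f : Fin n → Fin x // fstab f = V'.1} : ℕ)) : ℤ) = (x : ℤ) ^ k V := by
        rw [← h3, h2]
        push_cast
        rfl
      rw [← h4]
      push_cast
      rfl
    have h2 := hμ β _ h1
    rw [finsum_eq_sum_of_fintype] at h2
    rw [hP, ← h2]
    have h3 : Nat.card {f : Fin n → Fin x // fstab f = ⊥} = x.descFactorial n := by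
      have e : {f : Fin n → Fin x // fstab f = ⊥} ≃ (Fin n ↪ Fin x) :=
        { toFun := fun f => ⟨f.1, fun i j hij => by
            by_contra hne
            have h4 : Equiv.swap i j ∈ fstab f.1 := by
              intro l
              by_cases hl : l = i
              · subst hl; rw [Equiv.swap_apply_left]; exact hij.symm
              · by_cases hl' : l = j
                · subst hl'; rw [Equiv.swap_apply_right]; exact hij
                · rw [Equiv.swap_apply_of_ne_of_ne hl hl']
            rw [f.2, Subgroup.mem_bot] at h4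
            have h5 := Equiv.swap_apply_left i j
            rw [h4] at h5
            exact hne h5⟩
          invFun := fun f => ⟨f, by
            rw [eq_bot_iff]
            intro σ hσ
            rw [Subgroup.mem_bot]
            ext i
            rw [f.injective (hσ i)]
            rfl⟩
          left_inv := fun f => rfl
          right_inv := fun f => rfl }
      rw [Nat.card_congr e, Nat.card_eq_fintype_card, Fintype.card_embedding_eq]
      simp
    change (Nat.card {f : Fin n → Fin x // fstab f = ⊥} : ℤ) = _
    rw [h3]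
  have hPd : P = descPochhammer ℤ n := by
    refine eq_of_infinite_eval_eq _ _ ?_
    refine Set.Infinite.mono ?_ (Set.infinite_range_of_injective (Nat.cast_injective (R := ℤ)))
    rintro _ ⟨x, rfl⟩
    change P.eval (x : ℤ) = (descPochhammer ℤ n).eval (x : ℤ)
    rw [hnat, descPochhammer_eval_eq_descFactorial]
  rw [hv, hPd]
  have h5 := Ring.descPochhammer_eq_factorial_smul_choose v n
  rw [← Polynomial.eval_eq_smeval] at h5
  rw [h5, nsmul_eq_mul]

end Pool.Agent.helper58.DC
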