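import Mathlib
import Pool.Agent.helper58.DC.Spec2

/-! Module PSG: the signed number of paths. -/

set_option autoImplicit false

namespace Pool.Agent.helper58.DC

section

variable {T : Type} [Fintype T]

theorem exists_max_of_chain {W : Finset (T → ℕ)} (hne : W.Nonempty)
    (hc : IsChain (· ≤ ·) (W : Set (T → ℕ))) : ∃ m ∈ W, ∀ r ∈ W, r ≤ m := by
  obtain ⟨m, hm, hmax⟩ := W.exists_max_image (fun r => ∑ t, r t) hne
  refine ⟨m, hm, fun r hr => ?_⟩
  by_cases h : r = m
  · exact h.le
  rcases hc hr hm h with h1 | h1
  · exact h1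
  · exfalso
    apply h
    have h2 := hmax r hr
    have h3 : ∑ t, m t = ∑ t, r t := le_antisymm (Finset.sum_le_sum fun t _ => h1 t) h2
    have h4 := (Finset.sum_eq_sum_iff_of_le (fun t _ => h1 t)).1 h3
    funext t
    exact (h4 t (Finset.mem_univ t)).symm

theorem top_mem {a : T → ℕ} {W : Finset (T → ℕ)} (h : IsPath a W) : a ∈ W := by
  obtain ⟨m, hm, hmax⟩ := exists_max_of_chain h.1 h.2.1
  have : m = a := by
    funext t
    refine le_antisymm (h.2.2.1 m hm t) ?_
    obtain ⟨r, hr, hrt⟩ := h.2.2.2 t (a t) le_rfl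
    rw [← hrt]
    exact hmax r hr t
  rwa [← this]

open Classical in
/-- the set of paths -/
noncomputable def paths (a : T → ℕ) : Finset (Finset (T → ℕ)) :=
  (Fintype.piFinset fun t => Finset.range (a t + 1)).powerset.filter (IsPath a)

theorem mem_paths (a : T → ℕ) (W : Finset (T → ℕ)) : W ∈ paths a ↔ IsPath a W := by
  classical
  unfold paths
  rw [Finset.mem_filter, Finset.mem_powerset]
  refine and_iff_right_of_imp fun h r hr => ?_
  rw [Fintype.mem_piFinset]
  intro t
  rw [Finset.mem_range]
  exact Nat.lt_succ_of_le (h.2.2.1 r hr t)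

open Classical in
/-- lower the coordinates in `J` -/
noncomputable def lower (a : T → ℕ) (J : Finset T) : T → ℕ := fun t => if t ∈ J then a t - 1 else a t

open Classical in
theorem sum_paths (n : ℕ) : ∀ a : T → ℕ, ∑ t, a t = n →
    ∑ W ∈ paths a, (-1 : ℤ) ^ (W.card - 1) = ∏ t, (-1 : ℤ) ^ a t := by
  induction n using Nat.strong_induction_on with
  | _ n ih =>
  intro a ha
  by_cases h0 : a = 0
  · subst h0
    have h1 : paths (0 : T → ℕ) = {{0}} := by
      ext W
      rw [mem_paths, Finset.mem_singleton]
      constructor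
      · rintro ⟨h1, -, h3, -⟩
        have h4 : ∀ r ∈ W, r = 0 := fun r hr => by
          funext t
          exact Nat.le_zero.1 (h3 r hr t)
        exact Finset.eq_singleton_iff_nonempty_unique_mem.2 ⟨h1, h4⟩
      · rintro rfl
        refine ⟨Finset.singleton_nonempty _, ?_, ?_, ?_⟩
        · simp
        · intro r hr t
          rw [Finset.mem_singleton] at hr
          rw [hr]
        · intro t j hj
          exact ⟨0, Finset.mem_singleton_self _, (Nat.le_zero.1 hj).symm⟩
    rw [h1]
    simp
  -- the support
  set S : Finset T := Finset.univ.filter (fun t => 0 < a t) with hS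
  have hSne : S.Nonempty := by
    by_contra h
    rw [Finset.not_nonempty_iff_eq_empty] at h
    apply h0
    funext t
    have : t ∉ S := by rw [h]; simp
    simpa [hS] using this
  let JJ := S.powerset.erase ∅
  have key : ∑ W ∈ paths a, (-1 : ℤ) ^ (W.card - 1) =
      ∑ x ∈ JJ.sigma (fun J => paths (lower a J)), (-1 : ℤ) ^ (x.2.card) := by
    refine Finset.sum_bij' (fun W _ => (⟨Finset.univ.filter (fun t => ∀ r ∈ W.erase a, r t < a t),
      W.erase a⟩ : (_ : Finset T) × Finset (T → ℕ))) (fun x _ => insert a x.2) ?_ ?_ ?_ ?_ ?_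
    · intro W hW
      rw [mem_paths] at hW
      have haW := top_mem hW
      obtain ⟨t₀, ht₀⟩ := hSne
      have ht₀' : 0 < a t₀ := by simpa [hS] using ht₀
      obtain ⟨r₀, hr₀, hr₀t⟩ := hW.2.2.2 t₀ 0 (Nat.zero_le _)
      have hr₀a : r₀ ≠ a := by rintro rfl; omega
      have hne : (W.erase a).Nonempty := ⟨r₀, Finset.mem_erase.2 ⟨hr₀a, hr₀⟩⟩
      have hch : IsChain (· ≤ ·) ((W.erase a : Finset (T → ℕ)) : Set (T → ℕ)) :=
        hW.2.1.mono (by intro r hr; exact Finset.mem_of_mem_erase hr)
      obtain ⟨b, hb, hbmax⟩ := exists_max_of_chain hne hch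
      rw [Finset.mem_sigma]
      refine ⟨?_, ?_⟩
      · rw [Finset.mem_erase, Finset.mem_powerset]
        refine ⟨?_, ?_⟩
        · have hba := (Finset.mem_erase.1 hb).1
          have : ∃ t, b t ≠ a t := by
            by_contra h
            push Not at h
            exact hba (funext h)
          obtain ⟨t, ht⟩ := this
          have hlt : b t < a t := lt_of_le_of_ne (hW.2.2.1 b (Finset.mem_of_mem_erase hb) t) ht
          refine Finset.nonempty_iff_ne_empty.1 ⟨t, ?_⟩
          rw [Finset.mem_filter]
          exact ⟨Finset.mem_univ _, fun r hr => lt_of_le_of_lt (hbmax r hr t) hlt⟩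
        · intro t ht
          rw [Finset.mem_filter] at ht
          rw [hS, Finset.mem_filter]
          exact ⟨Finset.mem_univ _, lt_of_le_of_lt (Nat.zero_le _) (ht.2 r₀
            (Finset.mem_erase.2 ⟨hr₀a, hr₀⟩))⟩
      · rw [mem_paths]
        refine ⟨hne, hch, ?_, ?_⟩
        · intro r hr t
          unfold lower
          split_ifs with ht
          · have := (Finset.mem_filter.1 ht).2 r hr
            omega
          · exact hW.2.2.1 r (Finset.mem_of_mem_erase hr) t
        · intro t j hj
          unfold lower at hj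
          split_ifs at hj with ht
          · have h5 := (Finset.mem_filter.1 ht).2 r₀ (Finset.mem_erase.2 ⟨hr₀a, hr₀⟩)
            obtain ⟨r, hr, hrt⟩ := hW.2.2.2 t j (by omega)
            refine ⟨r, Finset.mem_erase.2 ⟨?_, hr⟩, hrt⟩
            rintro rfl
            omega
          · rcases Nat.lt_or_ge j (a t) with h6 | h6
            · obtain ⟨r, hr, hrt⟩ := hW.2.2.2 t j h6.le
              refine ⟨r, Finset.mem_erase.2 ⟨?_, hr⟩, hrt⟩
              rintro rfl
              omega
            · have h7 : ∃ r ∈ W.erase a, ¬ r t < a t := by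
                by_contra h
                push Not at h
                exact ht (Finset.mem_filter.2 ⟨Finset.mem_univ _, h⟩)
              obtain ⟨r, hr, hrt⟩ := h7
              refine ⟨r, hr, ?_⟩
              have := hW.2.2.1 r (Finset.mem_of_mem_erase hr) t
              omega
    · rintro ⟨J, W'⟩ hx
      rw [Finset.mem_sigma, Finset.mem_erase, Finset.mem_powerset] at hx
      obtain ⟨⟨hJ, hJS⟩, hW'⟩ := hx
      rw [mem_paths] at hW' ⊢
      have hle : ∀ t, lower a J t ≤ a t := fun t => by
        unfold lower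
        split_ifs <;> omega
      refine ⟨Finset.insert_nonempty _ _, ?_, ?_, ?_⟩
      · rw [Finset.coe_insert]
        refine hW'.2.1.insert fun r hr _ => Or.inr fun t => (hW'.2.2.1 r hr t).trans (hle t)
      · intro r hr t
        rcases Finset.mem_insert.1 hr with rfl | hr
        · exact le_rfl
        · exact (hW'.2.2.1 r hr t).trans (hle t)
      · intro t j hj
        by_cases h8 : j ≤ lower a J t
        · obtain ⟨r, hr, hrt⟩ := hW'.2.2.2 t j h8
          exact ⟨r, Finset.mem_insert_of_mem hr, hrt⟩
        · refine ⟨a, Finset.mem_insert_self _ _, ?_⟩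
          unfold lower at h8
          split_ifs at h8 <;> omega
    · intro W hW
      rw [mem_paths] at hW
      exact Finset.insert_erase (top_mem hW)
    · rintro ⟨J, W'⟩ hx
      rw [Finset.mem_sigma, Finset.mem_erase, Finset.mem_powerset] at hx
      obtain ⟨⟨hJ, hJS⟩, hW'⟩ := hx
      rw [mem_paths] at hW'
      have hpos : ∀ t ∈ J, 0 < a t := fun t ht => by
        have := hJS ht
        rw [hS, Finset.mem_filter] at this
        exact this.2
      have hnot : a ∉ W' := by
        intro h
        obtain ⟨t, ht⟩ := Finset.nonempty_iff_ne_empty.2 hJ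
        have h9 := hW'.2.2.1 a h t
        have := hpos t ht
        unfold lower at h9
        rw [if_pos ht] at h9
        omega
      have he : (insert a W').erase a = W' := Finset.erase_insert hnot
      dsimp only
      rw [he]
      congr 1
      ext t
      rw [Finset.mem_filter]
      constructor
      · rintro ⟨-, h⟩
        by_contra ht
        obtain ⟨r, hr, hrt⟩ := hW'.2.2.2 t (a t) (by unfold lower; rw [if_neg ht])
        have := h r hr
        omega
      · intro ht
        refine ⟨Finset.mem_univ _, fun r hr => ?_⟩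
        have h9 := hW'.2.2.1 r hr t
        have := hpos t ht
        unfold lower at h9
        rw [if_pos ht] at h9
        omega
    · intro W hW
      rw [mem_paths] at hW
      rw [Finset.card_erase_of_mem (top_mem hW)]
  rw [key, Finset.sum_sigma]
  have step : ∀ J ∈ JJ, ∑ W' ∈ paths (lower a J), (-1 : ℤ) ^ W'.card =
      -((∏ t, (-1 : ℤ) ^ a t) * (-1) ^ J.card) := by
    intro J hJ
    rw [Finset.mem_erase, Finset.mem_powerset] at hJ
    obtain ⟨hJ, hJS⟩ := hJ
    have hpos : ∀ t ∈ J, 0 < a t := fun t ht => by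
      have := hJS ht
      rw [hS, Finset.mem_filter] at this
      exact this.2
    have hlt : ∑ t, lower a J t < n := by
      rw [← ha]
      obtain ⟨t, ht⟩ := Finset.nonempty_iff_ne_empty.2 hJ
      refine Finset.sum_lt_sum (fun s _ => ?_) ⟨t, Finset.mem_univ _, ?_⟩
      · unfold lower
        split_ifs <;> omega
      · unfold lower
        rw [if_pos ht]
        have := hpos t ht
        omega
    have h1 := ih _ hlt (lower a J) rfl
    have h2 : ∀ W' ∈ paths (lower a J), (-1 : ℤ) ^ W'.card = -(-1) ^ (W'.card - 1) := by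
      intro W' hW'
      rw [mem_paths] at hW'
      have : 0 < W'.card := hW'.1.card_pos
      obtain ⟨k, hk⟩ := Nat.exists_eq_succ_of_ne_zero this.ne'
      rw [hk, pow_succ]
      simp
    rw [Finset.sum_congr rfl h2, Finset.sum_neg_distrib, h1]
    congr 1
    have h3 : ∀ t, (-1 : ℤ) ^ lower a J t = (-1) ^ a t * (if t ∈ J then -1 else 1) := by
      intro t
      unfold lower
      split_ifs with ht
      · obtain ⟨k, hk⟩ := Nat.exists_eq_succ_of_ne_zero (hpos t ht).ne'
        rw [hk, pow_succ]
        simp
      · simp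
    rw [Finset.prod_congr rfl fun t _ => h3 t, Finset.prod_mul_distrib]
    congr 1
    rw [Finset.prod_ite]
    simp
  rw [Finset.sum_congr rfl step, Finset.sum_neg_distrib, ← Finset.mul_sum]
  have h4 : ∑ J ∈ JJ, (-1 : ℤ) ^ J.card = -1 := by
    have h5 := Finset.sum_powerset_neg_one_pow_card_of_nonempty hSne
    have h6 := Finset.add_sum_erase S.powerset (fun J => (-1 : ℤ) ^ J.card)
      (Finset.empty_mem_powerset S)
    rw [h5] at h6
    simp only [Finset.card_empty, pow_zero] at h6
    change ∑ J ∈ S.powerset.erase ∅, (-1 : ℤ) ^ J.card = -1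
    omega
  rw [h4]
  ring

end

theorem PSG : PSG_stmt := by
  classical
  intro T _ a
  rw [← sum_paths _ a rfl, ← finsum_mem_coe_finset]
  have h := finsum_subtype_eq_finsum_cond (f := fun W : Finset (T → ℕ) =>
    (-1 : ℤ) ^ (W.card - 1)) (IsPath a)
  rw [h]
  refine finsum_congr fun W => ?_
  have h2 : IsPath a W ↔ W ∈ (paths a : Set (Finset (T → ℕ))) := by
    rw [Finset.mem_coe, mem_paths]
  by_cases h3 : IsPath a W
  · rw [finsum_eq_if, finsum_eq_if, if_pos h3, if_pos (h2.1 h3)]
  · rw [finsum_eq_if, finsum_eq_if, if_neg h3, if_neg (fun h4 => h3 (h2.2 h4))]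

end Pool.Agent.helper58.DC
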