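import Pool.Agent.helper43.DC.AE
import Pool.Agent.helper24.DC.AS
import Pool.Agent.helper7.DC.AU
import Pool.Agent.helper93.DC.AX
import Pool.Agent.helper32.DC.CL0
import Pool.Agent.helper48.DC.CL1
import Pool.Agent.helper91.DC.CO
import Pool.Agent.helper93.DC.EM
import Pool.Agent.helper91.DC.FN
import Pool.Agent.helper78.DC.FX
import Pool.Agent.helper64.DC.IF
import Pool.Agent.helper51.DC.IM
import Pool.Agent.helper98.DC.IO
import Pool.Agent.helper32.DC.IP
import Pool.Agent.helper93.DC.IRC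
import Pool.Agent.helper11.DC.IRF
import Pool.Agent.helper98.DC.IRP
import Pool.Agent.helper30.DC.IRT
import Pool.Agent.helper79.DC.IRU
import Pool.Agent.helper38.DC.IS
import Pool.Agent.helper77.DC.IVP
import Pool.Agent.helper48.DC.MB
import Pool.Agent.helper58.DC.MP
import Pool.Agent.helper91.DC.NB
import Pool.Agent.helper98.DC.NM
import Pool.Agent.helper7.DC.NT
import Pool.Agent.helper93.DC.OI
import Pool.Agent.helper55.DC.OM
import Pool.Agent.helper52.DC.OP
import Pool.Agent.helper52.DC.OS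
import Pool.Agent.helper98.DC.PA
import Pool.Agent.helper7.DC.PE
import Pool.Agent.helper27.DC.PI
import Pool.Agent.helper70.DC.PJ
import Pool.Agent.helper99.DC.PM
import Pool.Agent.helper41.DC.PO
import Pool.Agent.helper46.DC.PR
import Pool.Agent.helper34.DC.PR0
import Pool.Agent.helper58.DC.PSG
import Pool.Agent.helper99.DC.PT
import Pool.Agent.helper55.DC.RB
import Pool.Agent.helper61.DC.RE
import Pool.Agent.helper7.DC.RS
import Pool.Agent.helper55.DC.SK
import Pool.Agent.helper79.DC.SN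
import Pool.Agent.helper55.DC.ST
import Pool.Agent.helper31.DC.TI
import Pool.Agent.helper59.DC.TP
import Pool.Agent.helper34.DC.TR
import Pool.Agent.helper79.DC.WN
import Pool.Agent.helper32.DC.WQ
import Pool.Agent.helper58.DC.FA

/-! Assembly of project dq. -/

set_option autoImplicit false

namespace Pool.Agent.helper58.DC.All

open Pool.Agent Pool.Agent.helper58.DC

theorem dNM : NM_stmt := helper98.DC.NM
theorem dNT : NT_stmt := helper7.DC.NT
theorem dSN : SN_stmt := helper79.DC.SN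
theorem dRB : RB_stmt := helper55.DC.RB
theorem dPI : PI_stmt := helper27.DC.PI
theorem dPO : PO_stmt := helper41.DC.PO
theorem dPR0 : PR0_stmt := helper34.DC.PR0 dPI dPO dRB
theorem dPJ : PJ_stmt := helper70.DC.PJ dPR0 dPI dPO dRB
theorem dAS : AS_stmt := helper24.DC.AS dNT dRB dPI dPO
theorem dAU : AU_stmt := helper7.DC.AU dNT
theorem dAX : AX_stmt := helper93.DC.AX dNT dPR0 dPJ
theorem dAE : AE_stmt := helper43.DC.AE dNM
theorem dIRF : IRF_stmt := helper11.DC.IRF
theorem dIRT : IRT_stmt := helper30.DC.IRT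
theorem dIRU : IRU_stmt := helper79.DC.IRU dIRF
theorem dIF : IF_stmt := helper64.DC.IF dIRF dIRT
theorem dTI : TI_stmt := helper31.DC.TI dIRT
theorem dOI : OI_stmt := helper93.DC.OI
theorem dOP : OP_stmt := helper52.DC.OP
theorem dOM : OM_stmt := helper55.DC.OM
theorem dIM : IM_stmt := helper51.DC.IM dOM
theorem dIP : IP_stmt := helper32.DC.IP dOP dOI dIF dIRF dTI
theorem dSK : SK_stmt := helper55.DC.SK dIP dIF dTI
theorem dPM : PM_stmt := helper99.DC.PM dNM dSN dIF dOM dIM
theorem dCL0 : CL0_stmt := helper32.DC.CL0 dPM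
theorem dCL1 : CL1_stmt := helper48.DC.CL1 dPM dNM dSN dIF
theorem dPE : PE_stmt := helper7.DC.PE dAE dSK
theorem dIS : IS_stmt := helper38.DC.IS
theorem dRE : RE_stmt := helper61.DC.RE dIF
theorem dST : ST_stmt := helper55.DC.ST dIM dIF dTI
theorem dFN : FN_stmt := helper91.DC.FN dIRF
theorem dRS : RS_stmt := helper7.DC.RS dRE dST dFN
theorem dPSG : PSG_stmt := helper58.DC.PSG
theorem dIVP : IVP_stmt := helper77.DC.IVP
theorem dOS : OS_stmt := helper52.DC.OS dPSG dIVP
theorem dFX : FX_stmt := helper78.DC.FX dOS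
theorem dTP : TP_stmt := helper59.DC.TP
theorem dMB : MB_stmt := helper48.DC.MB
theorem dTR : TR_stmt := helper34.DC.TR dFX dTP
theorem dWF : WF_stmt := helper34.DC.WF dFX dTP
theorem dMP : MP_stmt := helper58.DC.MP
theorem dWN : WN_stmt := helper79.DC.WN dMB dWF dMP
theorem dNB : NB_stmt := helper91.DC.NB
theorem dEM : EM_stmt := helper93.DC.EM
theorem dCO : CO_stmt := helper91.DC.CO
theorem dWQ : WQ_stmt := helper32.DC.WQ

theorem dPT (hIRP : IRP_stmt) : PT_stmt := helper99.DC.PT dIRF hIRP dTI dIP dPO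
theorem dIO (hIRP : IRP_stmt) (hIRC : IRC_stmt) : IO_stmt := helper98.DC.IO dIRT hIRP hIRC dIRU
theorem dPA (hIRP : IRP_stmt) (hIRC : IRC_stmt) : PA_stmt :=
  helper98.DC.PA dAS dAU dAX (dIO hIRP hIRC) dIP dIF dPI
theorem dPR (hIRP : IRP_stmt) (hIRC : IRC_stmt) : PR_stmt :=
  helper46.DC.PR (dPA hIRP hIRC) dPE dPM

theorem dFA (hIRP2 : IRP2_stmt) (hIRC2 : IRC2_stmt) : FA_stmt :=
  have hIRP := helper98.DC.IRP dIRT hIRP2
  have hIRC := helper93.DC.IRC dIRF dIRT hIRC2
  FA dRS dCL0 dCL1 (dPR hIRP hIRC) dIS (dPT hIRP) dSK dWN dNB dWQ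
theorem dFB (hIRP2 : IRP2_stmt) (hIRC2 : IRC2_stmt) : FB_stmt :=
  have hIRP := helper98.DC.IRP dIRT hIRP2
  have hIRC := helper93.DC.IRC dIRF dIRT hIRC2
  FB dRS dCL0 dCL1 (dPR hIRP hIRC) dIS (dPT hIRP) dSK dTR dEM dCO

end Pool.Agent.helper58.DC.All
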