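import Mathlib
import Pool.Agent.helper58.DC.Spec2
import Pool.Agent.helper12.DD.Spec

/-!
# Project dz (MP_baa4d7_al): the bridge between the definitions of helper12 (namespace
`Pool.Agent.DD`, chains are lists) and of helper58 (namespace `Pool.Agent.helper58.DC`, chains are
finite sets), and the defect of blocks of products

A module XX proves `theorem XX (hYY : YY_stmt) ... : XX_stmt` in
`Pool/Agent/<helper>/DZ/XX.lean` with the header

  import Pool.Agent.helper58.DC.Spec4
  set_option autoImplicit false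
  open Pool.Agent Pool.Agent.helper58.DC
  namespace Pool.Agent.<helper>.DZ

Auxiliary lemmas prefixed XX_, no sorry, no double quotes. All statements of this file, of
`Pool/Agent/helper58/DC/Spec1.lean`, `Spec2.lean` and of `Pool/Agent/helper12/DD/Spec.lean` (all of
these are proved) may be taken as hypotheses, for example `(hCJK : DD.CJK_stmt)`.
-/

set_option autoImplicit false

namespace Pool.Agent.helper58.DC

open Pool.Agent

/-- LF. Chains as lists and as finite sets. (`DD.NC C` and `nrm C.toFinset` are both the infimum of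
the normalisers of the members; for a strictly increasing list `C` the members `≤ C[k]` are those
of `C.take (k + 1)`; the existence of a list by induction on the number of terms, removing
the largest one; uniqueness: two strictly increasing lists with the same members are equal.) -/
def LF_stmt : Prop :=
  ∀ (G : Type) [Group G] [Finite G] [DecidableEq (Subgroup G)] (p : ℕ),
    (∀ C : List (Subgroup G), DD.NC C = nrm C.toFinset) ∧
    (∀ C : List (Subgroup G), DD.Radical p C → IsRadical p C.toFinset ∧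
      C.toFinset.card = C.length) ∧
    (∀ D : Finset (Subgroup G), IsRadical p D → ∃ C : List (Subgroup G), DD.Radical p C ∧
      C.toFinset = D) ∧
    (∀ C C' : List (Subgroup G), DD.Radical p C → DD.Radical p C' → C.toFinset = C'.toFinset →
      C = C') ∧
    (∀ C C' : List (Subgroup G), DD.Radical p C → DD.Radical p C' →
      (DD.Conj C C' ↔ ∃ g : G, chainMap (MulAut.conj g) C.toFinset = C'.toFinset))

open Classical in
/-- KI. Characters of `N`: for a function `ψ` on `N` and its extension `ψ'` by zero to `G`: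
irreducibility, defects and induced blocks. (`Irr` are the same sets; the sum over the
elements of `N` conjugate to `g`; `χ` is a class function, so `Blk.omega χ g = omega χ g`.) -/
def KI_stmt : Prop :=
  ∀ (G : Type) [Group G] [Finite G] (p : ℕ) (M : Ideal (integralClosure ℤ ℂ)) (N : Subgroup G)
    (ψ : N → ℂ) (ψ' : G → ℂ), (∀ g, ψ' g = if h : g ∈ N then ψ ⟨g, h⟩ else 0) →
    (ψ ∈ helper49.Blk.Irr N ↔ ψ' ∈ IrrOn N) ∧
    (∀ d : ℕ, DD.Defc p ψ d ↔ Defect p N ψ' d) ∧
    (∀ χ ∈ Irr G, (DD.Induces M N χ ψ ↔ Induces M ψ' χ))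

open Classical in
/-- KS. Stabilisers. (An element fixes the finite set of terms of a chain iff it fixes every
term; `DD.Fixes` says that `e` normalises all terms, hence `N`, and fixes `ψ`; `X.inc` is
injective and `X.inc (X.act e x) = e * X.inc x * e⁻¹`; `map proj = ⊤` iff for every `e` some
`e * X.inc g` is in the stabiliser, as `proj` is surjective with kernel the range of `inc`.) -/
def KS_stmt : Prop :=
  ∀ (G E A : Type) [Group G] [Finite G] [Group E] [Group A] (X : Extension G E A)
    (C : Finset (Subgroup G)), IsChain (· ≤ ·) (C : Set (Subgroup G)) →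
    ∀ (ψ : nrm C → ℂ) (ψ' : G → ℂ), (∀ g, ψ' g = if h : g ∈ nrm C then ψ ⟨g, h⟩ else 0) →
    ((∀ e : E, DD.Fixes X.inc {P | P ∈ C} (nrm C) ψ e ↔ e ∈ X.stab C ψ') ∧
      (DD.StabIs X.inc {P | P ∈ C} (nrm C) ψ ⊤ ↔ (X.stab C ψ').map X.proj = ⊤))

/-- KC. The numbers `k_C(B, d, U)` for `U = E` (KI, KS, LF: `ψ ↦ ψ'` is a bijection of the two
sets). -/
def KC_stmt : Prop :=
  ∀ (G E A : Type) [Group G] [Finite G] [Group E] [Group A] [DecidableEq (Subgroup G)]
    (X : Extension G E A) (p : ℕ) (M : Ideal (integralClosure ℤ ℂ)), ∀ χ ∈ Irr G,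
    ∀ (d : ℕ) (C : List (Subgroup G)), DD.Radical p C →
    DD.kC p M X.inc χ C d ⊤ = kC X p M χ (d : ℤ) ⊤ C.toFinset

/-- AS. The alternating sums for `U = E`. (By LF the map `C ↦ class of C.toFinset` is a bijection
from the set of representatives `T` to `Quot (chainRel p)`; the number `kC X p M χ d ⊤ D` is
constant on classes: the two lists for `D` and for `c.out` are conjugate, so use KC and the
hypothesis `DD.CJK_stmt`; `(-1) ^ (card - 1)`.) -/
def AS4_stmt : Prop :=
  ∀ (G E A : Type) [Group G] [Finite G] [Group E] [Group A]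
    (X : Extension G E A) (p : ℕ) (M : Ideal (integralClosure ℤ ℂ)), ∀ χ ∈ Irr G,
    ∀ (d : ℕ) (T : Finset (List (Subgroup G))), DD.Trans p T →
    DD.altT p M X.inc χ T d ⊤ = altSum X p M χ (d : ℤ) ⊤

/-- NN. Only `d ≥ 0` matter (degrees divide the order of the group, hypothesis `DD.DVD_stmt`). -/
def NN_stmt : Prop :=
  ∀ (G E A : Type) [Group G] [Finite G] [Group E] [Group A] (X : Extension G E A) (p : ℕ),
    p.Prime → ∀ (M : Ideal (integralClosure ℤ ℂ)), ∀ χ ∈ Irr G, ∀ d : ℤ, d < 0 →
    altSum X p M χ d ⊤ = 0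

/-- EX. The extension of a normal subgroup (`A = E ⧸ ι.range`; the action by conjugation through
`MulAut.conjNormal` and the isomorphism `G ≃* ι.range`). -/
def EX_stmt : Prop :=
  ∀ (G E : Type) [Group G] [Group E] (ι : G →* E), Function.Injective ι → ι.range.Normal →
    ∃ (A : Type) (_ : Group A) (X : Extension G E A), X.inc = ι

/-- PD. Positive defect in both versions (for `ψ, χ ∈ Irr G`: `SameBlock M χ ψ` iff
`Induces M ψ χ`, see `IM` for symmetry; `Defect p ⊤`). -/
def PD_stmt : Prop :=
  ∀ (G : Type) [Group G] [Finite G] (p : ℕ) (M : Ideal (integralClosure ℤ ℂ)), ∀ χ ∈ Irr G,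
    (helper49.Blk.HasPositiveDefect p {ψ | ψ ∈ helper49.Blk.Irr G ∧ helper49.Blk.SameBlock M χ ψ} ↔
      PosDefect p M χ)

/-- `d(B) = D` for the block `B` of `χ`: the largest `d(ψ)`, `ψ` in `B`. -/
def BlockDefect {G : Type} [Group G] (p : ℕ) (M : Ideal (integralClosure ℤ ℂ)) (χ : G → ℂ)
    (D : ℕ) : Prop :=
  IsGreatest {d : ℤ | ∃ ψ ∈ Irr G, Induces M ψ χ ∧ Defect p ⊤ ψ d} D

/-- BE. Existence of the block defect; it is positive iff the block has positive defect.
(The set is finite, nonempty (`χ` itself) and consists of integers `≥ 0`, hypothesis `DD.DVD_stmt`.) -/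
def BE_stmt : Prop :=
  ∀ (G : Type) [Group G] [Finite G] (p : ℕ), p.Prime → ∀ (M : Ideal (integralClosure ℤ ℂ)),
    ∀ χ ∈ Irr G, (∃ D : ℕ, BlockDefect p M χ D) ∧
      ∀ D : ℕ, BlockDefect p M χ D → (0 < D ↔ PosDefect p M χ)

/-- BT. The block defect of a product. (Irreducible characters of `T → G` are products `tens ψ`
of irreducible characters (`IO_stmt` with `H = ⊤` or `IRC_stmt`, `IRP_stmt`), `tens ψ` is in the
block of `tens χ` iff all `ψ t` are in the block of `χ` (`IP_stmt` with `H = ⊤`, `TI_stmt`), and the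
defects add: `|T → G| = |G| ^ card T`, the degree of `tens ψ` is the product of the degrees.) -/
def BT_stmt : Prop :=
  ∀ (G T : Type) [Group G] [Finite G] [Fintype T] (p : ℕ), p.Prime →
    ∀ (M : Ideal (integralClosure ℤ ℂ)), ∀ χ ∈ Irr G, ∀ D : ℕ, BlockDefect p M χ D →
      BlockDefect p M (tens fun _ : T => χ) (Fintype.card T * D)

/-- The bound: for all data with `A` the alternating group of degree `m ≥ m₀`, a stable block of
defect `D` and a multiple `d` of `N` the alternating sum for `U = A` is less than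
`exp (c * D)`. -/
def Bound (p N m₀ : ℕ) (M : Ideal (integralClosure ℤ ℂ)) (c : ℝ) (D : ℕ) : Prop :=
  ∀ m ≥ m₀, ∀ (G E : Type) [Group G] [Group E] [Finite G] [Finite E]
    (X : Extension G E (alternatingGroup (Fin m))),
    IsOp p (⊤ : Subgroup G) ⊥ → ∀ χ ∈ Irr G, Stable X M χ → BlockDefect p M χ D →
      ∀ d : ℤ, (N : ℤ) ∣ d → (altSum X p M χ d ⊤ : ℝ) < Real.exp (c * D)

/-- FG. The growth criterion. -/
def FG_stmt : Prop :=
  ∀ (p N m₀ : ℕ), p.Prime → 1 ≤ N → ∀ M : Ideal (integralClosure ℤ ℂ), M.IsMaximal →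
    (p : integralClosure ℤ ℂ) ∈ M →
    (Dade p M ↔ ∀ c : ℝ, 0 < c → ∀ D₀ : ℕ, 1 ≤ D₀ → ∃ k : ℕ, 1 ≤ k ∧ Bound p N m₀ M c (k * D₀))

end Pool.Agent.helper58.DC
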