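import Mathlib
import Pool.Agent.helper58.DC.Spec4
import Pool.Agent.helper58.DC.FA

/-! The growth criterion with alternating groups. -/

set_option autoImplicit false

namespace Pool.Agent.helper58.DC

open Pool.Agent

/-- Lemma V2 (helper12): a case with a top coefficient of absolute value at least `2`. -/
def V2_stmt : Prop :=
  ∀ (p : ℕ), p.Prime → ∀ M : Ideal (integralClosure ℤ ℂ), M.IsMaximal →
    (p : integralClosure ℤ ℂ) ∈ M → (∃ (X : DD.Case p M) (d : ℕ), X.alt d ≠ 0) →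
    ∃ Y : DD.Case p M, Finite Y.E ∧ Y.U = ⊤ ∧ ∃ D : ℕ, 2 ≤ |Y.alt D| ∧ ∀ d, D < d → Y.alt d = 0

theorem FG_range {G E A : Type} [Group G] [Group E] [Group A] (X : Extension G E A) :
    X.inc.range.Normal := by
  constructor
  rintro _ ⟨x, rfl⟩ e
  exact ⟨X.act e x, X.act_spec e x⟩

theorem FG_alt (hTRE : DD.TRE_stmt) (hAS : AS4_stmt) {p : ℕ} {M : Ideal (integralClosure ℤ ℂ)}
    (Y : DD.Case p M) (hU : Y.U = ⊤) {A : Type} [Group A] (X : Extension Y.G Y.E A)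
    (hX : X.inc = Y.ι) (d : ℕ) : altSum X p M Y.χ (d : ℤ) ⊤ = Y.alt d := by
  classical
  unfold DD.Case.alt
  rw [dif_pos (hTRE Y.G p), hU, ← hX]
  exact (hAS Y.G Y.E A X p M Y.χ Y.irr d _ (hTRE Y.G p).choose_spec).symm

/-- A failure of Dade's conjecture with a large top coefficient. -/
theorem FG_fail (hV : V2_stmt) (hTRE : DD.TRE_stmt) (hAS : AS4_stmt) (hNN : NN_stmt)
    (hEX : EX_stmt) (hPD : PD_stmt) (hRS : RS_stmt) (hST : ST_stmt) (p : ℕ) (hp : p.Prime)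
    (M : Ideal (integralClosure ℤ ℂ)) (hM : M.IsMaximal) (hpM : (p : integralClosure ℤ ℂ) ∈ M)
    (h : ¬ Dade p M) :
    ∃ (G E A : Type) (_ : Group G) (_ : Group E) (_ : Group A) (_ : Finite G) (_ : Finite E)
      (X : Extension G E A) (χ : G → ℂ) (D : ℤ), IsOp p (⊤ : Subgroup G) ⊥ ∧ χ ∈ Irr G ∧
      PosDefect p M χ ∧ Stable X M χ ∧ 2 ≤ |altSum X p M χ D ⊤| ∧
      ∀ d > D, altSum X p M χ d ⊤ = 0 := by
  obtain ⟨G, E, A, _, _, _, _, _, X, χ, D, hop, hχ, hpd, hst, hne, -⟩ := hRS p M h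
  have hD : 0 ≤ D := by
    by_contra hcon
    exact hne (hNN G E A X p hp M χ hχ D (by omega))
  obtain ⟨D', rfl⟩ := Int.eq_ofNat_of_zero_le hD
  let X0 : DD.Case p M :=
    { G := G
      E := E
      ι := X.inc
      inj := X.inc_injective
      nor := FG_range X
      op := hop
      χ := χ
      irr := hχ
      pos := (hPD G p M χ hχ).2 hpd
      U := ⊤ }
  have h0 : X0.alt D' ≠ 0 := by
    rw [← FG_alt hTRE hAS X0 rfl X rfl D']
    exact hne
  obtain ⟨Y, hYE, hYU, D₁, h1, h2⟩ := hV p hp M hM hpM ⟨X0, D', h0⟩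
  obtain ⟨A', _, X', hX'⟩ := hEX Y.G Y.E Y.ι Y.inj Y.nor
  have ha : ∀ d : ℕ, altSum X' p M Y.χ (d : ℤ) ⊤ = Y.alt d := FG_alt hTRE hAS Y hYU X' hX'
  refine ⟨Y.G, Y.E, A', inferInstance, inferInstance, inferInstance, inferInstance, hYE, X', Y.χ,
    D₁, Y.op, Y.irr, (hPD Y.G p M Y.χ Y.irr).1 Y.pos, ?_, ?_, ?_⟩
  · apply hST Y.G Y.E A' X' p M Y.χ Y.irr D₁
    rw [ha D₁]
    intro h3
    rw [h3] at h1
    norm_num at h1
  · rw [ha D₁]
    exact h1
  · intro d hd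
    obtain ⟨d', rfl⟩ := Int.eq_ofNat_of_zero_le (by omega : 0 ≤ d)
    rw [ha d']
    exact h2 d' (by exact_mod_cast hd)

theorem FG (hV : V2_stmt) (hTRE : DD.TRE_stmt) (hAS : AS4_stmt) (hNN : NN_stmt)
    (hEX : EX_stmt) (hPD : PD_stmt) (hBE : BE_stmt) (hBT : BT_stmt) (hRS : RS_stmt)
    (hST : ST_stmt) (hCL0 : CL0_stmt) (hCL1 : CL1_stmt) (hPR : PR_stmt) (hIS : IS_stmt)
    (hPT : PT_stmt) (hSK : SK_stmt) (hTR : TR_stmt) (hEM : EM_stmt) (hCO : CO_stmt) :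
    FG_stmt := by
  intro p N m₀ hp hN M hM hpM
  have : Fact p.Prime := ⟨hp⟩
  constructor
  · intro h c _ D₀ hD₀
    refine ⟨1, le_rfl, fun m _ G E _ _ _ _ X hop χ hχ _ hBD d _ => ?_⟩
    have hpd : PosDefect p M χ := ((hBE G p hp M χ hχ).2 _ hBD).1 (by omega)
    rw [h G E _ X hop χ hχ hpd d ⊤]
    simpa using Real.exp_pos _
  · intro h
    by_contra hD
    obtain ⟨G, E, A, _, _, _, _, _, X, χ, D, hop, hχ, hpd, hst, hv, htop⟩ :=
      FG_fail hV hTRE hAS hNN hEX hPD hRS hST p hp M hM hpM hD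
    obtain ⟨⟨δ, hδ⟩, hpos⟩ := hBE G p hp M χ hχ
    have hδ0 : 0 < δ := (hpos δ hδ).2 hpd
    have : Finite A := (hSK G E A Unit Unit X ⟨fun _ _ => 1, fun _ _ _ => (one_mul _).symm⟩ M).2.2.2
      inferInstance
    obtain ⟨m₁, hm₁⟩ := hEM A
    obtain ⟨j, hj⟩ := hm₁ (max m₀ m₁) (le_max_right _ _)
    obtain ⟨Q, _, _, c₀, q₀, htr, hq₀⟩ := hCO A (alternatingGroup (Fin (max m₀ m₁))) j hj
    have hQ : 0 < Fintype.card Q := Fintype.card_pos_iff.2 ⟨q₀⟩
    obtain ⟨k, hk, hb⟩ := h (Real.log 2 / (Fintype.card Q * δ)) (by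
      have := Real.log_pos (by norm_num : (1 : ℝ) < 2)
      positivity) (2 * N * (Fintype.card Q * δ)) (by
      have : 0 < 2 * N * (Fintype.card Q * δ) := by positivity
      omega)
    set r : ℕ := 2 * (N * k) with hr
    obtain ⟨S, hS, hS'⟩ := altSum_kext hCL0 hCL1 hPR hIS hPT hSK G E A
      (alternatingGroup (Fin (max m₀ m₁))) (QR Q r) X (cocR c₀ r) p M hop χ hχ hst
    have hfix : ∀ d, S.fix d ⊤ = altSum X p M χ d ⊤ := fun d => by rw [fix_top, hS]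
    have h1 := hTR A (alternatingGroup (Fin (max m₀ m₁))) Q S c₀ q₀ r D hq₀
      (fun d hd => by rw [hfix, htop d hd])
    rw [fix_top, ← hS', hfix] at h1
    have hfin : Finite (KE X (cocR c₀ r)) :=
      (hSK G E A (alternatingGroup (Fin (max m₀ m₁))) (QR Q r) X (cocR c₀ r)
        M).2.2.1 inferInstance inferInstance
    have hcard : Fintype.card (QR Q r) = Fintype.card Q * r := by
      have : Fintype.card (QR Q r) = Fintype.card (Q × Fin r) := Fintype.card_congr (Equiv.refl _)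
      rw [this, Fintype.card_prod, Fintype.card_fin]
    have hBD := hBT G (QR Q r) p hp M χ hχ δ hδ
    have hdef : Fintype.card (QR Q r) * δ = k * (2 * N * (Fintype.card Q * δ)) := by
      rw [hcard, hr]
      ring
    rw [hdef] at hBD
    have h2 := hb (max m₀ m₁) (le_max_left _ _) (QR Q r → G) (KE X (cocR c₀ r))
      (kext X (cocR c₀ r)) ((hPT G (QR Q r) p M χ hχ).2.2 hop) _
      (hPT G (QR Q r) p M χ hχ).1
      ((hSK G E A _ (QR Q r) X (cocR c₀ r) M).2.1 χ hχ hst) hBD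
      ((Fintype.card Q : ℤ) * (r : ℤ) * D)
      ⟨(Fintype.card Q : ℤ) * 2 * k * D, by rw [hr]; push_cast; ring⟩
    rw [h1] at h2
    have h3 : Real.exp (Real.log 2 / (Fintype.card Q * δ) *
        ((k * (2 * N * (Fintype.card Q * δ)) : ℕ) : ℝ)) = 2 ^ r := by
      have hQ' : (Fintype.card Q : ℝ) ≠ 0 := by exact_mod_cast hQ.ne'
      have hδ' : (δ : ℝ) ≠ 0 := by exact_mod_cast hδ0.ne'
      have e : Real.log 2 / (Fintype.card Q * δ) *
          ((k * (2 * N * (Fintype.card Q * δ)) : ℕ) : ℝ) = r * Real.log 2 := by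
        rw [hr]
        push_cast
        field_simp
      rw [e, Real.exp_nat_mul, Real.exp_log (by norm_num)]
    rw [h3] at h2
    have h4 : (2 : ℤ) ^ r ≤ altSum X p M χ D ⊤ ^ r := by
      have h5 : altSum X p M χ D ⊤ ^ r = |altSum X p M χ D ⊤| ^ r := by
        rw [hr, pow_mul, pow_mul |altSum X p M χ D ⊤|, sq_abs]
      rw [h5]
      exact pow_le_pow_left₀ (by norm_num) hv r
    have h6 : (2 : ℝ) ^ r ≤ ((altSum X p M χ D ⊤ ^ r : ℤ) : ℝ) := by exact_mod_cast h4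
    linarith

end Pool.Agent.helper58.DC
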