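import Pool.Agent.helper58.DC.All3
import Pool.Agent.helper58.DC.FG
import Pool.Agent.helper12.DW.All2
import Pool.Agent.helper24.DZ.BT
import Pool.Agent.helper24.DZ.KS
import Pool.Agent.helper53.DZ.BE
import Pool.Agent.helper53.DZ.KI
import Pool.Agent.helper59.DZ.AS4
import Pool.Agent.helper62.DZ.LF
import Pool.Agent.helper62.DZ.NN
import Pool.Agent.helper71.DZ.KC
import Pool.Agent.helper77.DZ.EX
import Pool.Agent.helper97.DZ.PD

/-! Assembly of the growth criterion. -/

set_option autoImplicit false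

namespace Pool.Agent.helper58.DC.All4

open Pool.Agent Pool.Agent.helper58.DC

theorem dLF : LF_stmt := helper62.DZ.LF
theorem dKI : KI_stmt := helper53.DZ.KI
theorem dKS : KS_stmt := helper24.DZ.KS
theorem dKC : KC_stmt := helper71.DZ.KC dKI dKS dLF
theorem dAS4 : AS4_stmt := helper59.DZ.AS4 dLF dKC DD.all_CJK
theorem dNN : NN_stmt := helper62.DZ.NN DD.all_DVD
theorem dEX : EX_stmt := helper77.DZ.EX
theorem dPD : PD_stmt := helper97.DZ.PD DD.IRF
theorem dBE : BE_stmt := helper53.DZ.BE DD.all_DVD DD.IRF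
theorem dIRP : IRP_stmt := helper98.DC.IRP All.dIRT Pool.Agent.helper49.DC.IRP2
theorem dIRC : IRC_stmt := helper93.DC.IRC All.dIRF All.dIRT Pool.Agent.helper49.DC.IRC2
theorem dBT : BT_stmt := helper24.DZ.BT All.dTI All.dIF dIRP dIRC All.dIP

theorem dV2 : V2_stmt := fun _ hp _ hM hpM h => DD.V2 hp hM hpM h

theorem dFG : FG_stmt :=
  FG dV2 DD.all_TRE dAS4 dNN dEX dPD dBE dBT All.dRS All.dST All.dCL0 All.dCL1 (All.dPR dIRP dIRC)
    All.dIS (All.dPT dIRP) All.dSK All.dTR All.dEM All.dCO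

end Pool.Agent.helper58.DC.All4
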