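import Mathlib
import Pool.Agent.helper58.DC.Spec2

/-!
# Project dq (MP_baa4d7_al), part 3: the criterion modulo a prime with quotients of `q`-power order

For a group `Q` acting on a finite set `T` we use the wreath product `WrQ A Q T` of all pairs
`(σ, a)`, `σ ∈ Q`, `a : T → A`. The groups `W q k` are the iterated wreath products of cyclic groups
of order `q`, acting on the set `TT q k` of words of length `k`.
-/

set_option autoImplicit false

namespace Pool.Agent.helper58.DC

/-- The wreath product of `A` with a group `Q` acting on `T`. -/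
@[ext] structure WrQ (A Q T : Type) where
  /-- the component in `Q` -/
  σ : Q
  /-- the components in `A` -/
  a : T → A

section wr

variable {A Q T : Type} [Group A] [Group Q] [MulAction Q T]

instance : Mul (WrQ A Q T) where
  mul x y := ⟨x.σ * y.σ, fun t => x.a (y.σ • t) * y.a t⟩
instance : One (WrQ A Q T) where
  one := ⟨1, fun _ => 1⟩
instance : Inv (WrQ A Q T) where
  inv x := ⟨x.σ⁻¹, fun t => (x.a (x.σ⁻¹ • t))⁻¹⟩

@[simp] theorem WrQ.mul_σ (x y : WrQ A Q T) : (x * y).σ = x.σ * y.σ := rfl
@[simp] theorem WrQ.mul_a (x y : WrQ A Q T) (t : T) : (x * y).a t = x.a (y.σ • t) * y.a t := rfl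
@[simp] theorem WrQ.one_σ : (1 : WrQ A Q T).σ = 1 := rfl
@[simp] theorem WrQ.one_a (t : T) : (1 : WrQ A Q T).a t = 1 := rfl
@[simp] theorem WrQ.inv_σ (x : WrQ A Q T) : x⁻¹.σ = x.σ⁻¹ := rfl
@[simp] theorem WrQ.inv_a (x : WrQ A Q T) (t : T) : x⁻¹.a t = (x.a (x.σ⁻¹ • t))⁻¹ := rfl

instance : Group (WrQ A Q T) where
  mul_assoc x y z := by
    ext t
    · simp [mul_assoc]
    · simp [mul_assoc, mul_smul]
  one_mul x := by
    ext t
    · simp
    · simp
  mul_one x := by
    ext t
    · simp
    · simp
  inv_mul_cancel x := by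
    ext t
    · simp
    · simp

instance : MulAction (WrQ A Q T) T where
  smul x t := x.σ • t
  one_smul t := one_smul Q t
  mul_smul x y t := mul_smul x.σ y.σ t

theorem WrQ.smul_def (x : WrQ A Q T) (t : T) : x • t = x.σ • t := rfl

variable (A Q T)

/-- the tautological cocycle -/
def wqC : Cocycle (WrQ A Q T) T A where
  κ x t := x.a t
  mul _ _ _ := rfl

/-- the elements with component in `V` -/
def wqU {Q : Type} [Group Q] [MulAction Q T] (V : Subgroup Q) : Subgroup (WrQ A Q T) where
  carrier := {x | x.σ ∈ V}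
  mul_mem' hx hy := V.mul_mem hx hy
  one_mem' := V.one_mem
  inv_mem' hx := V.inv_mem hx

end wr

/-- the cyclic group of order `q`, written multiplicatively -/
abbrev Cq (q : ℕ) : Type := Multiplicative (ZMod q)

/-- words of length `k` -/
def TT (q : ℕ) : ℕ → Type
  | 0 => Unit
  | k + 1 => Cq q × TT q k

/-- the iterated wreath product with its group structure and its action on words -/
def WW (q : ℕ) : (k : ℕ) → (W : Type) × (_ : Group W) × MulAction W (TT q k)
  | 0 =>
    ⟨Unit, inferInstance,
      { smul := fun _ t => t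
        one_smul := fun _ => rfl
        mul_smul := fun _ _ _ => rfl }⟩
  | k + 1 =>
    letI := (WW q k).2.1
    letI := (WW q k).2.2
    ⟨WrQ (WW q k).1 (Cq q) (Cq q), inferInstance,
      { smul := fun x t => (x.σ • t.1, x.a t.1 • t.2)
        one_smul := fun t => Prod.ext (one_smul (Cq q) t.1) (one_smul _ t.2)
        mul_smul := fun x y t => Prod.ext (mul_smul x.σ y.σ t.1)
          (mul_smul (x.a (y.σ • t.1)) (y.a t.1) t.2) }⟩

/-- the iterated wreath product -/
def W (q k : ℕ) : Type := (WW q k).1

instance (q k : ℕ) : Group (W q k) := (WW q k).2.1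
instance (q k : ℕ) : MulAction (W q k) (TT q k) := (WW q k).2.2

/-- The number of regular orbits, by recursion. -/
def ON (q : ℕ) (v : ℤ) : ℕ → ℤ
  | 0 => v
  | k + 1 => (ON q v k ^ q - ON q v k) / q

/-- TF. Finiteness and orders: `TT q k` and `W q k` are finite for `q` prime, and the order of
`W q (k + 1)` is `q * |W q k| ^ q`; in particular it is a power of `q`. -/
def TF_stmt : Prop :=
  ∀ (q k : ℕ), q.Prime → Finite (TT q k) ∧ Nonempty (TT q k) ∧ Finite (W q k) ∧
    Nat.card (W q (k + 1)) = q * Nat.card (W q k) ^ q ∧ ∃ e, Nat.card (W q k) = q ^ e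

/-- MPQ. As MP, for an arbitrary finite group `Q` acting on a finite set `T`: there is a
polynomial `F` over `ℤ` such that `F (x)` is the number of functions `T → Fin x` with trivial
stabiliser, and `b ⊥ = F (v)`. (Same proof as `MP` in `Pool/Agent/helper58/DC/MP.lean`:
`exists_mu` and counting functions by their stabilisers.) -/
def MPQ_stmt : Prop :=
  ∀ (Q T : Type) [Group Q] [Finite Q] [Finite T] [MulAction Q T],
    ∃ F : Polynomial ℤ,
      (∀ x : ℕ, F.eval (x : ℤ) =
        Nat.card {f : T → Fin x // ∀ σ : Q, (∀ t, f (σ • t) = f t) → σ = 1}) ∧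
      ∀ (b : Subgroup Q → ℤ) (v : ℤ),
        (∀ V, ∑ᶠ V' : {V' : Subgroup Q // V ≤ V'}, b V'.1 =
          v ^ Nat.card (MulAction.orbitRel.Quotient V T)) → b ⊥ = F.eval v

/-- FR. The number of functions on words with trivial stabiliser. Proof for `k + 1`: a function on
`Cq q × TT q k` is a family of `q` functions on `TT q k`; its stabiliser in the wreath product
is trivial iff every member has trivial stabiliser in `W q k` and the members are not all in the
same orbit of `W q k`; so the number is `(|W| O)^q - O |W|^q` with `O` the number of regular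
orbits for `k`. (For `q` prime: if all members are in one orbit the element `σ` of `Cq q`, `σ ≠ 1`,
can be completed to an element of the stabiliser; if an element with `σ ≠ 1` is in the
stabiliser then all members are in one orbit since `σ` generates `Cq q`.) -/
def FR_stmt : Prop :=
  ∀ (q k x : ℕ), q.Prime →
    (Nat.card {f : TT q k → Fin x // ∀ σ : W q k, (∀ t, f (σ • t) = f t) → σ = 1} : ℤ) =
      Nat.card (W q k) * ON q x k

/-- OZ. Divisibility: `ON` is an integer valued polynomial, given by the same recursion without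
division remainders (Fermat), and for `v ≠ 0` some `ON q v k` is not divisible by `q` (if
`q ∣ O`, `O ≠ 0`, then `(O ^ q - O) / q` has valuation one less than `O`). -/
def OZ_stmt : Prop :=
  ∀ (q : ℕ), q.Prime → ∀ v : ℤ, (∀ k, (q : ℤ) * ON q v (k + 1) = ON q v k ^ q - ON q v k) ∧
    (v ≠ 0 → ∃ k, ¬ (q : ℤ) ∣ ON q v k)

/-- FP. Consequence of MPQ, FR, OZ: `b ⊥` for the group `W q k`. (The polynomials `F` and
`|W| * ON q X k`, the latter over `ℚ`, agree on natural numbers, hence at `v`.) -/
def FP_stmt : Prop :=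
  ∀ (q k : ℕ), q.Prime → ∀ (b : Subgroup (W q k) → ℤ) (v : ℤ),
    (∀ V, ∑ᶠ V' : {V' : Subgroup (W q k) // V ≤ V'}, b V'.1 =
      v ^ Nat.card (MulAction.orbitRel.Quotient V (TT q k))) →
    b ⊥ = Nat.card (W q k) * ON q v k

/-- WFQ. As WF (proof in `Pool/Agent/helper34/DC/TR.lean`), for `WrQ A Q T`. -/
def WFQ_stmt : Prop :=
  ∀ (A Q T : Type) [Group A] [Group Q] [Fintype T] [MulAction Q T] (S : SSet A) (D : ℤ)
    (V : Subgroup Q), (∀ d > D, S.fix d ⊤ = 0) →
      (pathS S (wqC A Q T)).fix ((Fintype.card T : ℤ) * D) (wqU A T V) =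
        (S.fix D ⊤) ^ Nat.card (MulAction.orbitRel.Quotient V T)

/-- WNQ. As WN (proof in `Pool/Agent/helper79/DC/WN.lean`), for `Q = W q k`, from MB, WFQ, FP. -/
def WNQ_stmt : Prop :=
  ∀ (A : Type) [Group A] [Finite A] (q k : ℕ) [Fintype (TT q k)] (S : SSet A) (D : ℤ), q.Prime →
    (∀ d > D, S.fix d ⊤ = 0) →
      (pathS S (wqC A (W q k) (TT q k))).num ((Fintype.card (TT q k) : ℤ) * D)
        (wqU A (TT q k) (⊥ : Subgroup (W q k))) = Nat.card (W q k) * ON q (S.fix D ⊤) k

/-- WQQ. The base group of the wreath product is normal of index `|Q|`, and the wreath product is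
finite. -/
def WQQ_stmt : Prop :=
  ∀ (A Q T : Type) [Group A] [Group Q] [MulAction Q T],
    (wqU A T (⊥ : Subgroup Q)).Normal ∧ (wqU A T (⊥ : Subgroup Q)).index = Nat.card Q ∧
    (Finite A → Finite Q → Finite T → Finite (WrQ A Q T))

/-- The hypothesis of the criterion modulo `q`: for all data with a stable block and a normal
subgroup `U` of `A` of index `q ^ k` the alternating sum is divisible by `q ^ (k + 1)`. -/
def PowHyp (p q : ℕ) (M : Ideal (integralClosure ℤ ℂ)) : Prop :=
  ∀ (G E A : Type) [Group G] [Group E] [Group A] [Finite G] [Finite E] (X : Extension G E A),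
    IsOp p (⊤ : Subgroup G) ⊥ → ∀ χ ∈ Irr G, PosDefect p M χ → Stable X M χ →
    ∀ (k : ℕ) (U : Subgroup A), U.Normal → U.index = q ^ k →
      ∀ d : ℤ, ((q : ℤ) ^ (k + 1)) ∣ altSum X p M χ d U

/-- FC. The criterion modulo a prime. -/
def FC_stmt : Prop :=
  ∀ (p q : ℕ) [Fact p.Prime], q.Prime → ∀ M : Ideal (integralClosure ℤ ℂ),
    (Dade p M ↔ PowHyp p q M)

end Pool.Agent.helper58.DC
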