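import Mathlib
import Pool.Agent.helper58.DC.Spec3
import Pool.Agent.helper58.DC.FA

/-! Final theorem: the criterion modulo a prime. -/

set_option autoImplicit false

namespace Pool.Agent.helper58.DC

theorem FC (hRS : RS_stmt) (hCL0 : CL0_stmt) (hCL1 : CL1_stmt) (hPR : PR_stmt) (hIS : IS_stmt)
    (hPT : PT_stmt) (hSK : SK_stmt) (hWNQ : WNQ_stmt) (hOZ : OZ_stmt) (hWQQ : WQQ_stmt)
    (hTF : TF_stmt) : FC_stmt := by
  intro p q _ hq M
  constructor
  · intro h G E A _ _ _ _ _ X hop χ hχ hpd _ k U _ _ d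
    rw [h G E A X hop χ hχ hpd d U]
    exact dvd_zero _
  · intro h
    by_contra hD
    obtain ⟨G, E, A, _, _, _, _, _, X, χ, D, hop, hχ, hpd, hst, hne, htop⟩ := hRS p M hD
    have : Finite A := (hSK G E A Unit Unit X ⟨fun _ _ => 1, fun _ _ _ => (one_mul _).symm⟩ M).2.2.2
      inferInstance
    obtain ⟨k, hk⟩ := (hOZ q hq _).2 hne
    obtain ⟨hT, hT', hW, -, e, he⟩ := hTF q k hq
    have := Fintype.ofFinite (TT q k)
    obtain ⟨S, hS, hS'⟩ := altSum_kext hCL0 hCL1 hPR hIS hPT hSK G E A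
      (WrQ A (W q k) (TT q k)) (TT q k) X (wqC A (W q k) (TT q k)) p M hop χ hχ hst
    have hfix : ∀ d, S.fix d ⊤ = altSum X p M χ d ⊤ := fun d => by rw [fix_top, hS]
    have h1 := hWNQ A q k S D hq (fun d hd => by rw [hfix, htop d hd])
    rw [← hS', hfix, he] at h1
    have hWQ := hWQQ A (W q k) (TT q k)
    have : Finite (WrQ A (W q k) (TT q k)) := hWQ.2.2 inferInstance inferInstance inferInstance
    have : Finite (KE X (wqC A (W q k) (TT q k))) :=
      (hSK G E A (WrQ A (W q k) (TT q k)) (TT q k) X (wqC A (W q k) (TT q k)) M).2.2.1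
        inferInstance inferInstance
    have h2 := h (TT q k → G) (KE X (wqC A (W q k) (TT q k))) (WrQ A (W q k) (TT q k))
      (kext X (wqC A (W q k) (TT q k)))
      ((hPT G (TT q k) p M χ hχ).2.2 hop) _ (hPT G (TT q k) p M χ hχ).1
      ((hPT G (TT q k) p M χ hχ).2.1 hT' hpd)
      ((hSK G E A (WrQ A (W q k) (TT q k)) (TT q k) X (wqC A (W q k) (TT q k)) M).2.1 χ hχ hst)
      e (wqU A (TT q k) ⊥) hWQ.1 (hWQ.2.1.trans he) ((Fintype.card (TT q k) : ℤ) * D)
    rw [h1, pow_succ] at h2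
    apply hk
    have h3 : ((q : ℤ) ^ e) ≠ 0 := pow_ne_zero _ (by exact_mod_cast hq.ne_zero)
    push_cast at h2
    exact (mul_dvd_mul_iff_left h3).1 h2

end Pool.Agent.helper58.DC
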