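import Pool.Agent.helper58.DC.All
import Pool.Agent.helper58.DC.FC
import Pool.Agent.helper49.DC.IRP2
import Pool.Agent.helper49.DC.IRC2
import Pool.Agent.helper98.DC.MPQ
import Pool.Agent.helper54.DC.FR
import Pool.Agent.helper97.DC.OZ
import Pool.Agent.helper73.DC.TF
import Pool.Agent.helper63.DC.WFQ
import Pool.Agent.helper60.DC.WNQ
import Pool.Agent.helper65.DC.WQQ
import Pool.Agent.helper92.DC.FP

/-! Assembly of the criterion modulo a prime. -/

set_option autoImplicit false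

namespace Pool.Agent.helper58.DC.All3

open Pool.Agent Pool.Agent.helper58.DC

theorem dTF : TF_stmt := helper73.DC.TF
theorem dOZ : OZ_stmt := helper97.DC.OZ
theorem dFR : FR_stmt := helper54.DC.FR dTF dOZ
theorem dMPQ : MPQ_stmt := helper98.DC.MPQ
theorem dFP : FP_stmt := helper92.DC.FP dMPQ dFR dOZ dTF
theorem dWFQ : WFQ_stmt := helper63.DC.WFQ All.dFX All.dTP
theorem dWNQ : WNQ_stmt := helper60.DC.WNQ All.dMB dWFQ dFP dTF
theorem dWQQ : WQQ_stmt := helper65.DC.WQQ

theorem dFC : FC_stmt :=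
  have hIRP := helper98.DC.IRP All.dIRT Pool.Agent.helper49.DC.IRP2
  have hIRC := helper93.DC.IRC All.dIRF All.dIRT Pool.Agent.helper49.DC.IRC2
  FC All.dRS All.dCL0 All.dCL1 (All.dPR hIRP hIRC) All.dIS (All.dPT hIRP) All.dSK dWNQ dOZ
    dWQQ dTF

end Pool.Agent.helper58.DC.All3
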